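import Pool.Agent.H47.Kc.Bounds

/-! # Interp: interpolation error

`interp`: on `[a, b]` with `f'' ≤ M`, `0 ≤ M`: `f t ≥ min (f a) (f b) - M (b - a)^2 / 8`
(`g t = f t - M t^2 / 2` is concave: `concaveOn_of_deriv2_nonpos` or similar; chord of `g`, and
`(t - a) (b - t) ≤ (b - a)^2 / 4`).  `interp_grid`: choose the cell containing `t`
(`n = 0`: the interval is one point).  `gap_le`: arithmetic of `gap`. -/

set_option autoImplicit false

namespace Pool.H47.Kc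

theorem interp (f : ℝ → ℝ) (a b M L : ℝ) (hab : a ≤ b) (hM : 0 ≤ M) (h : D2Le f a b M)
    (ha : L ≤ f a) (hb : L ≤ f b) (t : ℝ) (h1 : a ≤ t) (h2 : t ≤ b) :
    L - M * (b - a) ^ 2 / 8 ≤ f t := by
  rcases eq_or_lt_of_le hab with hab' | hab'
  · have ht : t = a := le_antisymm (by linarith) h1
    rw [ht]
    have : 0 ≤ M * (b - a) ^ 2 / 8 := by positivity
    linarith
  obtain ⟨f1, f2, hf1, hf2, hle⟩ := h
  set g : ℝ → ℝ := fun τ => f τ - M * τ ^ 2 / 2 with hg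
  have hg1 : ∀ τ, HasDerivAt g (f1 τ - M * τ) τ := by
    intro τ
    have h3 : HasDerivAt (fun τ : ℝ => M * τ ^ 2 / 2) (M * τ) τ := by
      have h4 := ((hasDerivAt_pow 2 τ).const_mul M).div_const 2
      refine h4.congr_deriv ?_
      push_cast
      ring
    exact (hf1 τ).sub h3
  have hg2 : ∀ τ, HasDerivAt (fun τ => f1 τ - M * τ) (f2 τ - M) τ := by
    intro τ
    have h3 : HasDerivAt (fun τ : ℝ => M * τ) M τ := by
      have h4 := (hasDerivAt_id τ).const_mul M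
      refine h4.congr_deriv ?_
      ring
    exact (hf2 τ).sub h3
  have hconc : ConcaveOn ℝ (Set.Icc a b) g := by
    refine concaveOn_of_hasDerivWithinAt2_nonpos (convex_Icc a b) (f' := fun τ => f1 τ - M * τ)
      (f'' := fun τ => f2 τ - M) ?_ ?_ ?_ ?_
    · exact fun τ _ => (hg1 τ).continuousAt.continuousWithinAt
    · exact fun τ _ => (hg1 τ).hasDerivWithinAt
    · exact fun τ _ => (hg2 τ).hasDerivWithinAt
    · intro τ hτ
      have h3 := interior_subset hτ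
      have h4 := hle τ h3.1 h3.2
      linarith
  have hba : 0 < b - a := by linarith
  set θ := (t - a) / (b - a) with hθ
  have hθ0 : 0 ≤ θ := div_nonneg (by linarith) hba.le
  have hθ1 : θ ≤ 1 := (div_le_one hba).2 (by linarith)
  have hθb : θ * (b - a) = t - a := by
    rw [hθ]
    field_simp
  have hc := hconc.2 (Set.left_mem_Icc.2 hab) (Set.right_mem_Icc.2 hab)
    (show (0 : ℝ) ≤ 1 - θ by linarith) hθ0 (by ring)
  simp only [smul_eq_mul] at hc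
  have ht : (1 - θ) * a + θ * b = t := by linarith
  rw [ht] at hc
  simp only [hg] at hc
  have h3 : (1 - θ) * f a + θ * f b ≥ L := by nlinarith
  have h4 : (1 - θ) * a ^ 2 + θ * b ^ 2 - t ^ 2 ≤ (b - a) ^ 2 / 4 := by
    have h5 : (1 - θ) * a ^ 2 + θ * b ^ 2 - t ^ 2 = θ * (1 - θ) * (b - a) ^ 2 := by
      rw [← ht]
      ring
    have h6 : θ * (1 - θ) ≤ 1 / 4 := by nlinarith [sq_nonneg (θ - 1 / 2)]
    rw [h5]
    nlinarith [sq_nonneg (b - a)]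
  have h7 : M * ((1 - θ) * a ^ 2 + θ * b ^ 2 - t ^ 2) ≤ M * ((b - a) ^ 2 / 4) :=
    mul_le_mul_of_nonneg_left h4 hM
  nlinarith

private theorem cell (p : ℕ → ℝ) (t : ℝ) (n : ℕ) (hn : 1 ≤ n) (h1 : p 0 ≤ t) (h2 : t ≤ p n) :
    ∃ i, i + 1 ≤ n ∧ p i ≤ t ∧ t ≤ p (i + 1) := by
  induction n, hn using Nat.le_induction with
  | base => exact ⟨0, le_rfl, h1, h2⟩
  | succ n hn ih =>
    by_cases h3 : t ≤ p n
    · obtain ⟨i, h4, h5, h6⟩ := ih h3
      exact ⟨i, by omega, h5, h6⟩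
    · exact ⟨n, le_rfl, (not_le.1 h3).le, h2⟩

theorem interp_grid (f : ℝ → ℝ) (a : ℤ) (s n e : ℕ) (M L : ℝ) (hM : 0 ≤ M)
    (h : D2Le f ((a : ℝ) / 2 ^ e) ((a + s * n : ℝ) / 2 ^ e) M)
    (hv : ∀ i : ℕ, i ≤ n → L ≤ f (((a : ℝ) + s * i) / 2 ^ e)) (t : ℝ)
    (h1 : (a : ℝ) / 2 ^ e ≤ t) (h2 : t ≤ (a + s * n : ℝ) / 2 ^ e) :
    L - M * ((s : ℝ) / 2 ^ e) ^ 2 / 8 ≤ f t := by
  have h0 : 0 ≤ M * ((s : ℝ) / 2 ^ e) ^ 2 / 8 := by positivity
  rcases Nat.eq_zero_or_pos n with hn | hn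
  · subst hn
    have ht : t = (a : ℝ) / 2 ^ e := by
      refine le_antisymm ?_ h1
      simpa using h2
    have h3 := hv 0 le_rfl
    rw [ht]
    simp only [Nat.cast_zero, mul_zero, add_zero] at h3
    linarith
  · have hpow : (0 : ℝ) < 2 ^ e := by positivity
    obtain ⟨i, hi, h3, h4⟩ := cell (fun i => ((a : ℝ) + s * i) / 2 ^ e) t n hn (by simpa using h1) h2
    have hs : (0 : ℝ) ≤ s := Nat.cast_nonneg s
    have hi0 : (0 : ℝ) ≤ i := Nat.cast_nonneg i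
    have hin : ((i : ℝ) + 1) ≤ n := by exact_mod_cast hi
    have hle1 : (a : ℝ) / 2 ^ e ≤ ((a : ℝ) + s * i) / 2 ^ e := by
      gcongr
      nlinarith
    have hle2 : ((a : ℝ) + s * ((i + 1 : ℕ) : ℝ)) / 2 ^ e ≤ ((a : ℝ) + s * n) / 2 ^ e := by
      push_cast
      gcongr
    have hD : D2Le f (((a : ℝ) + s * i) / 2 ^ e) (((a : ℝ) + s * ((i + 1 : ℕ) : ℝ)) / 2 ^ e) M := by
      obtain ⟨f1, f2, h5, h6, h7⟩ := h
      exact ⟨f1, f2, h5, h6, fun τ h8 h9 => h7 τ (hle1.trans h8) (h9.trans hle2)⟩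
    have h5 := interp f _ _ M L (h3.trans h4) hM hD (hv i (by omega)) (hv (i + 1) hi) t h3 h4
    have h6 : ((a : ℝ) + s * ((i + 1 : ℕ) : ℝ)) / 2 ^ e - ((a : ℝ) + s * i) / 2 ^ e = (s : ℝ) / 2 ^ e := by
      push_cast
      ring
    rw [h6] at h5
    exact h5

theorem gap_le (M s e : ℕ) :
    (M : ℝ) / 2 ^ 48 * ((s : ℝ) / 2 ^ e) ^ 2 / 8 ≤ (gap M s e : ℝ) / 2 ^ 60 := by
  have hg : gap M s e = (M * (s * s) * 512) / 2 ^ (2 * e) + 1 := rfl
  have h1 : M * (s * s) * 512 ≤ 2 ^ (2 * e) * ((M * (s * s) * 512) / 2 ^ (2 * e) + 1) :=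
    (Nat.lt_mul_div_succ _ (by positivity)).le
  rw [← hg] at h1
  have h2 : ((M * (s * s) * 512 : ℕ) : ℝ) ≤ ((2 ^ (2 * e) * gap M s e : ℕ) : ℝ) := by
    exact_mod_cast h1
  push_cast at h2
  have h3 : (M : ℝ) / 2 ^ 48 * ((s : ℝ) / 2 ^ e) ^ 2 / 8 =
      (M * (s * s) * 512 : ℝ) / 2 ^ (2 * e) / 2 ^ 60 := by
    rw [div_pow, ← pow_mul, mul_comm e 2]
    field_simp
    ring
  rw [h3]
  apply div_le_div_of_nonneg_right _ (by positivity)
  rw [div_le_iff₀ (by positivity)]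
  linarith

end Pool.H47.Kc
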