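import Pool.Agent.H47.Kc.Defs

/-! # Rel: programs respect relations between interpretations (induction on the program) -/

set_option autoImplicit false

namespace Pool.H47.Kc

/-- a relation between two interpretations -/
structure RelAlg {α β : Type} (A : Alg α) (B : Alg β) (R : α → β → Prop) : Prop where
  cst : ∀ z e, R (A.cst z e) (B.cst z e)
  base : ∀ i, R (A.base i) (B.base i)
  x : R A.x B.x
  y : R A.y B.y
  add : ∀ a b a' b', R a a' → R b b' → R (A.add a b) (B.add a' b')
  sub : ∀ a b a' b', R a a' → R b b' → R (A.sub a b) (B.sub a' b')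
  mul : ∀ a b a' b', R a a' → R b b' → R (A.mul a b) (B.mul a' b')
  dflt : R A.dflt B.dflt

private theorem Rel_get_cons {α β : Type} {R : α → β → Prop} {da : α} {db : β} {a : α} {b : β}
    {l : List α} {l' : List β} (hab : R a b) (hl : ∀ i, R (get da l i) (get db l' i)) (i : ℕ) :
    R (get da (a :: l) i) (get db (b :: l') i) := by
  cases i with
  | zero => exact hab
  | succ n => exact hl n

private theorem Rel_step {α β : Type} {A : Alg α} {B : Alg β} {R : α → β → Prop}
    (h : RelAlg A B R) (op : Op) (st : List α) (st' : List β)
    (hst : ∀ i, R (get A.dflt st i) (get B.dflt st' i)) :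
    R (step A st op) (step B st' op) := by
  cases op with
  | cst z e => exact h.cst z e
  | base i => exact h.base i
  | x => exact h.x
  | y => exact h.y
  | add a b => exact h.add _ _ _ _ (hst a) (hst b)
  | sub a b => exact h.sub _ _ _ _ (hst a) (hst b)
  | mul a b => exact h.mul _ _ _ _ (hst a) (hst b)

private theorem Rel_run {α β : Type} {A : Alg α} {B : Alg β} {R : α → β → Prop}
    (h : RelAlg A B R) (P : List Op) : ∀ (st : List α) (st' : List β),
    (∀ i, R (get A.dflt st i) (get B.dflt st' i)) →
    ∀ i, R (get A.dflt (run A P st) i) (get B.dflt (run B P st') i) := by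
  induction P with
  | nil => intro st st' hst i; exact hst i
  | cons op P ih =>
    intro st st' hst i
    exact ih (step A st op :: st) (step B st' op :: st')
      (Rel_get_cons (Rel_step h op st st' hst) hst) i

theorem res_rel {α β : Type} {A : Alg α} {B : Alg β} {R : α → β → Prop} (h : RelAlg A B R)
    (P : List Op) : R (res A P) (res B P) := by
  exact Rel_run h P [] [] (fun _ => h.dflt) 0

theorem horner_rel {α β : Type} {A : Alg α} {B : Alg β} {R : α → β → Prop}
    (hc : ∀ z e, R (A.cst z e) (B.cst z e))
    (hadd : ∀ a b a' b', R a a' → R b b' → R (A.add a b) (B.add a' b'))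
    (hmul : ∀ a b a' b', R a a' → R b b' → R (A.mul a b) (B.mul a' b'))
    (t : α) (t' : β) (ht : R t t') (l : List Fx) : R (horner A t l) (horner B t' l) := by
  induction l with
  | nil => exact hc 0 0
  | cons a l ih => exact hadd _ _ _ _ (hc a.n a.e) (hmul _ _ _ _ ht ih)

theorem bases_rel {α β : Type} {A : Alg α} {B : Alg β} {R : α → β → Prop}
    (hc : ∀ z e, R (A.cst z e) (B.cst z e))
    (hadd : ∀ a b a' b', R a a' → R b b' → R (A.add a b) (B.add a' b'))
    (hmul : ∀ a b a' b', R a a' → R b b' → R (A.mul a b) (B.mul a' b'))
    (t : α) (t' : β) (ht : R t t') (da : α) (db : β) (hd : R da db) (S : List Sym) (i : ℕ) :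
    R (get da (bases A t S) i) (get db (bases B t' S) i) := by
  induction S generalizing i with
  | nil => exact hd
  | cons s S ih =>
    exact Rel_get_cons (horner_rel hc hadd hmul t t' ht s.p) ih i

private theorem Rel_horner_real (β : ℕ → ℝ) (x y t : ℝ) (l : List Fx) :
    horner (realAlg β x y) t l = pval l t := by
  induction l with
  | nil => simp [horner, realAlg, pval]
  | cons a l ih =>
    have h1 : horner (realAlg β x y) t (a :: l) =
        a.val + t * horner (realAlg β x y) t l := rfl
    rw [h1, ih]
    rfl

/-- the real bases are the nominal values -/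
theorem get_bases_real (S : List Sym) (β : ℕ → ℝ) (x y t : ℝ) (i : ℕ) :
    get 0 (bases (realAlg β x y) t S) i = nom S t i := by
  induction S generalizing i with
  | nil => rfl
  | cons s S ih =>
    cases i with
    | zero => exact Rel_horner_real β x y t s.p
    | succ n => exact ih n

end Pool.H47.Kc
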