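import Pool.Agent.H47.Kc.Rel

/-! # Balls: ball arithmetic, jets, pairs

`Int.ediv` is the floor for positive divisors: `a / b ≤ (a : ℝ) / b < a / b + 1`.  Products:
`v w 2^48 - c c' / 2^48 = ((v 2^48 - c) (w 2^48) + c (w 2^48 - c')) / 2^48`, `|w 2^48| ≤ mag`.
`Jets`: relation of a jet with a function `f` on the interval `I`: `JetRel`. -/

set_option autoImplicit false

namespace Pool.H47.Kc

private theorem Balls_sc : ((sc : ℕ) : ℝ) = 2 ^ 48 := by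
  norm_num [sc]

/-- floor of a quotient with a positive divisor -/
private theorem Balls_ediv (a : ℤ) (b : ℤ) (hb : 0 < b) :
    ((a / b : ℤ) : ℝ) ≤ (a : ℝ) / b ∧ (a : ℝ) / b ≤ ((a / b : ℤ) : ℝ) + 1 := by
  have hb' : (0 : ℝ) < (b : ℝ) := by exact_mod_cast hb
  constructor
  · rw [le_div_iff₀ hb']
    have := Int.ediv_mul_le a (ne_of_gt hb)
    exact_mod_cast this
  · rw [div_le_iff₀ hb']
    have := Int.lt_ediv_add_one_mul_self a hb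
    exact_mod_cast this.le

private theorem Balls_ndiv (a : ℕ) (b : ℕ) (hb : 0 < b) :
    (a : ℝ) / b ≤ ((Nat.div a b : ℕ) : ℝ) + 1 := by
  have hb' : (0 : ℝ) < (b : ℝ) := by exact_mod_cast hb
  rw [div_le_iff₀ hb']
  have h : a < (a / b + 1) * b := by
    have := Nat.lt_mul_div_succ a hb
    rw [mul_comm]
    exact this
  have h2 : (a : ℝ) < (((a / b : ℕ) : ℝ) + 1) * b := by exact_mod_cast h
  exact h2.le

theorem Ball.in_add {a b : Ball} {v w : ℝ} (h : a.In v) (h' : b.In w) : (a.add b).In (v + w) := by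
  unfold Ball.In at *
  change |(v + w) * 2 ^ 48 - ((a.c + b.c : ℤ) : ℝ)| ≤ ((a.r + b.r : ℕ) : ℝ)
  push_cast
  rw [abs_le] at *
  constructor <;> linarith [h.1, h.2, h'.1, h'.2]

theorem Ball.in_sub {a b : Ball} {v w : ℝ} (h : a.In v) (h' : b.In w) : (a.sub b).In (v - w) := by
  unfold Ball.In at *
  change |(v - w) * 2 ^ 48 - ((a.c - b.c : ℤ) : ℝ)| ≤ ((a.r + b.r : ℕ) : ℝ)
  push_cast
  rw [abs_le] at *
  constructor <;> linarith [h.1, h.2, h'.1, h'.2]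

theorem Ball.in_mag {a : Ball} {v : ℝ} (h : a.In v) : |v| * 2 ^ 48 ≤ a.mag := by
  unfold Ball.In at h
  change |v| * 2 ^ 48 ≤ ((a.c.natAbs + a.r : ℕ) : ℝ)
  push_cast
  have e1 : ((a.c.natAbs : ℕ) : ℝ) = |(a.c : ℝ)| := by
    rw [Nat.cast_natAbs]
    push_cast
    rfl
  have e2 : |v| * 2 ^ 48 = |v * 2 ^ 48| := by
    rw [abs_mul, abs_of_pos (by positivity : (0 : ℝ) < 2 ^ 48)]
  rw [e2]
  have h3 := abs_sub_abs_le_abs_sub (v * 2 ^ 48) (a.c : ℝ)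
  have e3 : |(a.c : ℝ)| = ((|a.c| : ℤ) : ℝ) := by push_cast; rfl
  try rw [e1]
  try rw [← e3]
  linarith

theorem Ball.in_mul {a b : Ball} {v w : ℝ} (h : a.In v) (h' : b.In w) : (a.mul b).In (v * w) := by
  have hm := Ball.in_mag h'
  unfold Ball.In at *
  set D : ℝ := 2 ^ 48 with hD
  have hD0 : 0 < D := by rw [hD]; positivity
  change |(v * w) * D - (((a.c * b.c) / (sc : ℤ) : ℤ) : ℝ)| ≤
    ((Nat.div (a.c.natAbs * b.r + a.r * b.mag) sc + 2 : ℕ) : ℝ)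
  have h1 := Balls_ediv (a.c * b.c) (sc : ℤ) (by norm_num [sc])
  have h2 := Balls_ndiv (a.c.natAbs * b.r + a.r * b.mag) sc (by norm_num [sc])
  have hsc : (((sc : ℕ) : ℤ) : ℝ) = D := by
    rw [hD, ← Balls_sc]
    push_cast
    rfl
  rw [hsc] at h1
  rw [Balls_sc] at h2
  rw [← hD] at h2
  push_cast at h1 h2 ⊢
  have e1 : ((a.c.natAbs : ℕ) : ℝ) = |(a.c : ℝ)| := by
    rw [Nat.cast_natAbs]
    push_cast
    rfl
  have h3 : |(v * w) * D - (a.c : ℝ) * b.c / D| ≤ (|(a.c : ℝ)| * b.r + a.r * b.mag) / D := by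
    have e2 : (v * w) * D - (a.c : ℝ) * b.c / D =
        ((v * D - a.c) * (w * D) + a.c * (w * D - b.c)) / D := by
      field_simp
      ring
    rw [e2, abs_div, abs_of_pos hD0]
    refine div_le_div_of_nonneg_right ?_ hD0.le
    refine (abs_add_le _ _).trans ?_
    rw [abs_mul (v * D - a.c) (w * D), abs_mul (a.c : ℝ) (w * D - b.c)]
    have e3 : |w * D| ≤ b.mag := by
      rw [abs_mul, abs_of_pos hD0]
      exact hm
    have h4 : |v * D - a.c| * |w * D| ≤ a.r * b.mag :=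
      mul_le_mul h e3 (abs_nonneg _) (Nat.cast_nonneg _)
    have h5 : |(a.c : ℝ)| * |w * D - b.c| ≤ |(a.c : ℝ)| * b.r :=
      mul_le_mul_of_nonneg_left h' (abs_nonneg _)
    linarith
  have h6 : |(a.c : ℝ) * b.c / D - (((a.c * b.c) / (sc : ℤ) : ℤ) : ℝ)| ≤ 1 := by
    rw [abs_le]
    push_cast
    constructor <;> linarith [h1.1, h1.2]
  have h7 := abs_sub_le ((v * w) * D) ((a.c : ℝ) * b.c / D)
    ((((a.c * b.c) / (sc : ℤ) : ℤ) : ℝ))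
  have e4 : (|(a.c : ℝ)| * b.r + a.r * b.mag) / D ≤
      ((Nat.div (a.c.natAbs * b.r + a.r * b.mag) sc : ℕ) : ℝ) + 1 := by
    refine le_trans (le_of_eq ?_) h2
    rw [← e1]
  push_cast at h7 h6 e4
  linarith

theorem Ball.in_cst (z : ℤ) (e : ℕ) : (Ball.ofCst z e).In ((z : ℝ) / 2 ^ e) := by
  unfold Ball.In
  change |(z : ℝ) / 2 ^ e * 2 ^ 48 - (((z * (sc : ℤ)) / ((2 : ℤ) ^ e) : ℤ) : ℝ)| ≤ ((1 : ℕ) : ℝ)
  have h1 := Balls_ediv (z * (sc : ℤ)) ((2 : ℤ) ^ e) (by positivity)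
  have e1 : ((z * (sc : ℤ) : ℤ) : ℝ) / ((2 : ℤ) ^ e : ℤ) = (z : ℝ) / 2 ^ e * 2 ^ 48 := by
    push_cast
    rw [Balls_sc]
    ring
  rw [e1] at h1
  rw [abs_le]
  push_cast at h1 ⊢
  constructor <;> linarith [h1.1, h1.2]

theorem Ball.in_icc (a b : ℤ) (e : ℕ) (v : ℝ) (h1 : (a : ℝ) / 2 ^ e ≤ v)
    (h2 : v ≤ (b : ℝ) / 2 ^ e) : (Ball.ofIcc a b e).In v := by
  unfold Ball.In
  change |v * 2 ^ 48 - ((((a + b) * (sc : ℤ)) / ((2 : ℤ) ^ (e + 1)) : ℤ) : ℝ)| ≤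
    ((Nat.div ((b - a).natAbs * sc) (2 ^ (e + 1)) + 2 : ℕ) : ℝ)
  have hp : (0 : ℝ) < 2 ^ e := by positivity
  have hab : (a : ℝ) ≤ b := by
    have := h1.trans h2
    rwa [div_le_div_iff_of_pos_right hp] at this
  have h3 := Balls_ediv ((a + b) * (sc : ℤ)) ((2 : ℤ) ^ (e + 1)) (by positivity)
  have h4 := Balls_ndiv ((b - a).natAbs * sc) (2 ^ (e + 1)) (by positivity)
  have e1 : (((a + b) * (sc : ℤ) : ℤ) : ℝ) / ((2 : ℤ) ^ (e + 1) : ℤ) =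
      ((a : ℝ) / 2 ^ e + b / 2 ^ e) / 2 * 2 ^ 48 := by
    push_cast
    rw [Balls_sc]
    field_simp
    ring
  have e2 : (((b - a).natAbs : ℕ) : ℝ) = b - a := by
    rw [Nat.cast_natAbs, abs_of_nonneg (by exact_mod_cast sub_nonneg.2 hab)]
    push_cast
    rfl
  have e3 : (((b - a).natAbs * sc : ℕ) : ℝ) / ((2 ^ (e + 1) : ℕ) : ℝ) =
      ((b : ℝ) / 2 ^ e - a / 2 ^ e) / 2 * 2 ^ 48 := by
    push_cast
    rw [e2, Balls_sc]
    field_simp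
    ring
  rw [e1] at h3
  rw [e3] at h4
  rw [abs_le]
  push_cast at h3 h4 ⊢
  set A : ℝ := (a : ℝ) / 2 ^ e
  set B : ℝ := (b : ℝ) / 2 ^ e
  constructor
  · nlinarith [h3.1, h3.2]
  · nlinarith [h3.1, h3.2]

theorem Ball.in_zero : (⟨0, 0⟩ : Ball).In 0 := by
  simp [Ball.In]

theorem Ball.in_one : (⟨(sc : Int), 0⟩ : Ball).In 1 := by
  unfold Ball.In
  simp only [one_mul]
  have : (((sc : ℕ) : ℤ) : ℝ) = 2 ^ 48 := by
    rw [← Balls_sc]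
    push_cast
    rfl
  rw [this]
  simp

theorem Ball.in_dbl {a : Ball} {v : ℝ} (h : a.In v) : a.dbl.In (2 * v) := by
  have := Ball.in_add h h
  rw [← two_mul] at this
  exact this

/-- the jet encloses value and the first two derivatives of `f` on `I` -/
def JetRel (I : Set ℝ) (j : Jet) (f : ℝ → ℝ) : Prop :=
  ∃ f1 f2 : ℝ → ℝ, (∀ τ, HasDerivAt f (f1 τ) τ) ∧ (∀ τ, HasDerivAt f1 (f2 τ) τ) ∧
    ∀ τ ∈ I, j.a.In (f τ) ∧ j.b.In (f1 τ) ∧ j.d.In (f2 τ)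

/-- pointwise interpretation in functions -/
noncomputable def fnAlg (β : ℕ → ℝ → ℝ) (x y : ℝ → ℝ) : Alg (ℝ → ℝ) where
  cst z e := fun _ => z / 2 ^ e
  base := β
  x := x
  y := y
  add := fun a b τ => a τ + b τ
  sub := fun a b τ => a τ - b τ
  mul := fun a b τ => a τ * b τ
  dflt := fun _ => 0

theorem res_fn (β : ℕ → ℝ → ℝ) (x y : ℝ → ℝ) (P : List Op) (τ : ℝ) :
    res (fnAlg β x y) P τ = res (realAlg (fun i => β i τ) (x τ) (y τ)) P := by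
  have h : RelAlg (fnAlg β x y) (realAlg (fun i => β i τ) (x τ) (y τ))
      (fun (f : ℝ → ℝ) (r : ℝ) => f τ = r) := by
    constructor
    · intro z e; rfl
    · intro i; rfl
    · rfl
    · rfl
    · rintro a b a' b' rfl rfl; rfl
    · rintro a b a' b' rfl rfl; rfl
    · rintro a b a' b' rfl rfl; rfl
    · rfl
  exact res_rel h P

theorem JetRel.add {I : Set ℝ} {j k : Jet} {f g : ℝ → ℝ} (h : JetRel I j f) (h' : JetRel I k g) :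
    JetRel I (j.add k) (fun τ => f τ + g τ) := by
  obtain ⟨f1, f2, hf1, hf2, hf⟩ := h
  obtain ⟨g1, g2, hg1, hg2, hg⟩ := h'
  refine ⟨fun τ => f1 τ + g1 τ, fun τ => f2 τ + g2 τ, fun τ => (hf1 τ).add (hg1 τ),
    fun τ => (hf2 τ).add (hg2 τ), fun τ hτ => ?_⟩
  obtain ⟨a1, a2, a3⟩ := hf τ hτ
  obtain ⟨b1, b2, b3⟩ := hg τ hτ
  exact ⟨Ball.in_add a1 b1, Ball.in_add a2 b2, Ball.in_add a3 b3⟩

theorem JetRel.sub {I : Set ℝ} {j k : Jet} {f g : ℝ → ℝ} (h : JetRel I j f) (h' : JetRel I k g) :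
    JetRel I (j.sub k) (fun τ => f τ - g τ) := by
  obtain ⟨f1, f2, hf1, hf2, hf⟩ := h
  obtain ⟨g1, g2, hg1, hg2, hg⟩ := h'
  refine ⟨fun τ => f1 τ - g1 τ, fun τ => f2 τ - g2 τ, fun τ => (hf1 τ).sub (hg1 τ),
    fun τ => (hf2 τ).sub (hg2 τ), fun τ hτ => ?_⟩
  obtain ⟨a1, a2, a3⟩ := hf τ hτ
  obtain ⟨b1, b2, b3⟩ := hg τ hτ
  exact ⟨Ball.in_sub a1 b1, Ball.in_sub a2 b2, Ball.in_sub a3 b3⟩

theorem JetRel.mul {I : Set ℝ} {j k : Jet} {f g : ℝ → ℝ} (h : JetRel I j f) (h' : JetRel I k g) :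
    JetRel I (j.mul k) (fun τ => f τ * g τ) := by
  obtain ⟨f1, f2, hf1, hf2, hf⟩ := h
  obtain ⟨g1, g2, hg1, hg2, hg⟩ := h'
  refine ⟨fun τ => f τ * g1 τ + f1 τ * g τ,
    fun τ => f τ * g2 τ + f2 τ * g τ + 2 * (f1 τ * g1 τ), fun τ => ?_, fun τ => ?_,
    fun τ hτ => ?_⟩
  · have := (hf1 τ).mul (hg1 τ)
    refine this.congr_deriv ?_
    ring
  · have := ((hf1 τ).mul (hg2 τ)).add ((hf2 τ).mul (hg1 τ))
    refine this.congr_deriv ?_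
    ring
  · obtain ⟨a1, a2, a3⟩ := hf τ hτ
    obtain ⟨b1, b2, b3⟩ := hg τ hτ
    exact ⟨Ball.in_mul a1 b1, Ball.in_add (Ball.in_mul a1 b2) (Ball.in_mul a2 b1),
      Ball.in_add (Ball.in_add (Ball.in_mul a1 b3) (Ball.in_mul a3 b1))
        (Ball.in_dbl (Ball.in_mul a2 b2))⟩

theorem JetRel.const {I : Set ℝ} {a : Ball} {v : ℝ} (h : a.In v) :
    JetRel I a.cj (fun _ => v) := by
  exact ⟨fun _ => 0, fun _ => 0, fun τ => hasDerivAt_const τ v, fun τ => hasDerivAt_const τ 0,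
    fun τ _ => ⟨h, Ball.in_zero, Ball.in_zero⟩⟩

theorem JetRel.var {I : Set ℝ} {a : Ball} (h : ∀ τ ∈ I, a.In τ) : JetRel I a.vj (fun τ => τ) := by
  exact ⟨fun _ => 1, fun _ => 0, fun τ => hasDerivAt_id τ, fun τ => hasDerivAt_const τ 1,
    fun τ hτ => ⟨h τ hτ, Ball.in_one, Ball.in_zero⟩⟩

/-- pair relation -/
def DifRel (f : Dif) (p : ℝ × ℝ) : Prop :=
  f.a.In p.1 ∧ f.a.In p.2 ∧ |p.1 - p.2| * 2 ^ 60 ≤ f.d

theorem DifRel.add {f g : Dif} {p q : ℝ × ℝ} (h : DifRel f p) (h' : DifRel g q) :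
    DifRel (f.add g) (p.1 + q.1, p.2 + q.2) := by
  obtain ⟨h1, h2, h3⟩ := h
  obtain ⟨g1, g2, g3⟩ := h'
  refine ⟨Ball.in_add h1 g1, Ball.in_add h2 g2, ?_⟩
  change |(p.1 + q.1) - (p.2 + q.2)| * 2 ^ 60 ≤ ((f.d + g.d : ℕ) : ℝ)
  push_cast
  have e : (p.1 + q.1) - (p.2 + q.2) = (p.1 - p.2) + (q.1 - q.2) := by ring
  rw [e]
  have := abs_add_le (p.1 - p.2) (q.1 - q.2)
  nlinarith

theorem DifRel.sub {f g : Dif} {p q : ℝ × ℝ} (h : DifRel f p) (h' : DifRel g q) :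
    DifRel (f.sub g) (p.1 - q.1, p.2 - q.2) := by
  obtain ⟨h1, h2, h3⟩ := h
  obtain ⟨g1, g2, g3⟩ := h'
  refine ⟨Ball.in_sub h1 g1, Ball.in_sub h2 g2, ?_⟩
  change |(p.1 - q.1) - (p.2 - q.2)| * 2 ^ 60 ≤ ((f.d + g.d : ℕ) : ℝ)
  push_cast
  have e : (p.1 - q.1) - (p.2 - q.2) = (p.1 - p.2) - (q.1 - q.2) := by ring
  rw [e]
  have := abs_sub (p.1 - p.2) (q.1 - q.2)
  nlinarith

theorem DifRel.mul {f g : Dif} {p q : ℝ × ℝ} (h : DifRel f p) (h' : DifRel g q) :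
    DifRel (f.mul g) (p.1 * q.1, p.2 * q.2) := by
  obtain ⟨h1, h2, h3⟩ := h
  obtain ⟨g1, g2, g3⟩ := h'
  refine ⟨Ball.in_mul h1 g1, Ball.in_mul h2 g2, ?_⟩
  change |p.1 * q.1 - p.2 * q.2| * 2 ^ 60 ≤
    ((Nat.div (f.a.mag * g.d + f.d * g.a.mag) sc + 1 : ℕ) : ℝ)
  have h4 := Balls_ndiv (f.a.mag * g.d + f.d * g.a.mag) sc (by norm_num [sc])
  rw [Balls_sc] at h4
  push_cast at h4 ⊢
  refine le_trans ?_ h4
  have hD : (0 : ℝ) < 2 ^ 48 := by positivity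
  rw [le_div_iff₀ hD]
  have m1 := Ball.in_mag g1
  have m2 := Ball.in_mag h2
  have e : p.1 * q.1 - p.2 * q.2 = p.2 * (q.1 - q.2) + (p.1 - p.2) * q.1 := by ring
  rw [e]
  have h5 := abs_add_le (p.2 * (q.1 - q.2)) ((p.1 - p.2) * q.1)
  rw [abs_mul, abs_mul] at h5
  have h6 : (|p.2| * 2 ^ 48) * (|q.1 - q.2| * 2 ^ 60) ≤ f.a.mag * g.d :=
    mul_le_mul m2 g3 (by positivity) (Nat.cast_nonneg _)
  have h7 : (|p.1 - p.2| * 2 ^ 60) * (|q.1| * 2 ^ 48) ≤ f.d * g.a.mag :=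
    mul_le_mul h3 m1 (by positivity) (Nat.cast_nonneg _)
  have h8 : |p.2 * (q.1 - q.2) + (p.1 - p.2) * q.1| * 2 ^ 60 * 2 ^ 48 ≤
      (|p.2| * |q.1 - q.2| + |p.1 - p.2| * |q.1|) * 2 ^ 60 * 2 ^ 48 := by
    have : (0 : ℝ) ≤ 2 ^ 60 * 2 ^ 48 := by positivity
    nlinarith
  linarith

end Pool.H47.Kc
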