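import Pool.Agent.H47.Kc.Balls

/-! # Bounds: second derivatives and differences in a zone

`MT_sound`: `res_rel` for `jetAlg ..` and `fnAlg (fun i τ => nom S τ i) (const x) (const y)` with the
relation `JetRel (Icc lo hi)`; the bases by `bases_rel` (functions `fun τ => nom S τ i`; use
`get_bases_real` pointwise or a version for `fnAlg`).  `MX_sound`, `MY_sound`: the bases are
constants (`cjs`).  The upper end of the ball of the second derivative is `(c + r) / 2^48`.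
`err_sound`: `res_rel` for `difAlg` and pairs of reals with `DifRel`; bases: nominal ball by
`bases_rel`/`horner_rel`, enlarged by `eps / 4096 + 1`. -/

set_option autoImplicit false

namespace Pool.H47.Kc

/-- one dimensional statement on the second derivative of `f` on `[lo, hi]` -/
def D2Le (f : ℝ → ℝ) (lo hi M : ℝ) : Prop :=
  ∃ f1 f2 : ℝ → ℝ, (∀ τ, HasDerivAt f (f1 τ) τ) ∧ (∀ τ, HasDerivAt f1 (f2 τ) τ) ∧
    ∀ τ, lo ≤ τ → τ ≤ hi → f2 τ ≤ M

private theorem horner_real (β : ℕ → ℝ) (x y t : ℝ) (l : List Fx) :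
    horner (realAlg β x y) t l = pval l t := by
  induction l with
  | nil => simp [horner, realAlg, pval]
  | cons a l ih =>
    have h1 : horner (realAlg β x y) t (a :: l) =
        (a.n : ℝ) / 2 ^ a.e + t * horner (realAlg β x y) t l := rfl
    rw [h1, ih]
    rfl

private theorem horner_fn (β : ℕ → ℝ → ℝ) (x y : ℝ → ℝ) (l : List Fx) :
    horner (fnAlg β x y) (fun τ => τ) l = fun τ => pval l τ := by
  induction l with
  | nil =>
    funext τ
    simp [horner, fnAlg, pval]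
  | cons a l ih =>
    funext τ
    have h1 : horner (fnAlg β x y) (fun τ => τ) (a :: l) τ =
        (a.n : ℝ) / 2 ^ a.e + τ * horner (fnAlg β x y) (fun τ => τ) l τ := rfl
    rw [h1, ih]
    rfl

private theorem get_bases_fn (S : List Sym) (β : ℕ → ℝ → ℝ) (x y : ℝ → ℝ) (i : ℕ) :
    get (fun _ => (0 : ℝ)) (bases (fnAlg β x y) (fun τ => τ) S) i = fun τ => nom S τ i := by
  induction S generalizing i with
  | nil => rfl
  | cons s S ih =>
    cases i with
    | zero =>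
      have h1 : get (fun _ => (0 : ℝ)) (bases (fnAlg β x y) (fun τ => τ) (s :: S)) 0 =
        horner (fnAlg β x y) (fun τ => τ) s.p := rfl
      rw [h1, horner_fn]
      rfl
    | succ i =>
      have h1 : get (fun _ => (0 : ℝ)) (bases (fnAlg β x y) (fun τ => τ) (s :: S)) (i + 1) =
        get (fun _ => (0 : ℝ)) (bases (fnAlg β x y) (fun τ => τ) S) i := rfl
      rw [h1, ih i]
      rfl

private theorem get_cjs (l : List Ball) (i : ℕ) :
    get (⟨⟨0, 0⟩, ⟨0, 0⟩, ⟨0, 0⟩⟩ : Jet) (cjs l) i = (get ⟨0, 0⟩ l i).cj := by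
  induction l generalizing i with
  | nil => rfl
  | cons a l ih =>
    cases i with
    | zero => rfl
    | succ i => exact ih i

private theorem in_box (a : ℤ) (s n e : ℕ) (v : ℝ) (h1 : (a : ℝ) / 2 ^ e ≤ v)
    (h2 : v ≤ (a + s * n : ℝ) / 2 ^ e) : (Ball.ofIcc a (a + (Nat.mul s n : Nat)) e).In v := by
  refine Ball.in_icc _ _ _ _ h1 ?_
  have h3 : ((a + (Nat.mul s n : Nat) : ℤ) : ℝ) = (a : ℝ) + s * n := by
    have h4 : Nat.mul s n = s * n := rfl
    rw [h4]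
    push_cast
    rfl
  rw [h3]
  exact h2

private theorem upper {a : Ball} {v : ℝ} (h : a.In v) : v ≤ ((a.c + a.r).toNat : ℝ) / 2 ^ 48 := by
  have h1 := (abs_le.1 h).2
  rw [le_div_iff₀ (by positivity)]
  have h2 : (a.c + a.r : ℤ) ≤ ((a.c + a.r).toNat : ℤ) := Int.self_le_toNat _
  have h3 : ((a.c + a.r : ℤ) : ℝ) ≤ (((a.c + a.r).toNat : ℤ) : ℝ) := by exact_mod_cast h2
  push_cast at h3
  have h4 : (((a.c + a.r).toNat : ℤ) : ℝ) = ((a.c + a.r).toNat : ℝ) := by norm_cast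
  have h5 : v * 2 ^ 48 ≤ (a.c : ℝ) + a.r := by linarith
  refine h5.trans ?_
  have h6 : ((a.c : ℝ) + (a.r : ℝ)) ≤ ((a.c + a.r).toNat : ℝ) := by
    rw [← h4]
    exact_mod_cast h2
  exact h6

private theorem d2le_of_jet {lo hi : ℝ} {j : Jet} {f : ℝ → ℝ} (h : JetRel (Set.Icc lo hi) j f) :
    D2Le f lo hi (((j.d.c + j.d.r).toNat : ℝ) / 2 ^ 48) := by
  obtain ⟨f1, f2, h1, h2, h3⟩ := h
  exact ⟨f1, f2, h1, h2, fun τ h4 h5 => upper (h3 τ ⟨h4, h5⟩).2.2⟩

private theorem jet_alg (I : Set ℝ) (q : List Jet) (jx jy : Jet) (β : ℕ → ℝ → ℝ) (x y : ℝ → ℝ)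
    (hb : ∀ i, JetRel I (get ⟨⟨0, 0⟩, ⟨0, 0⟩, ⟨0, 0⟩⟩ q i) (β i)) (hx : JetRel I jx x)
    (hy : JetRel I jy y) : RelAlg (jetAlg q jx jy) (fnAlg β x y) (JetRel I) where
  cst z e := JetRel.const (Ball.in_cst z e)
  base := hb
  x := hx
  y := hy
  add _ _ _ _ h h' := JetRel.add h h'
  sub _ _ _ _ h h' := JetRel.sub h h'
  mul _ _ _ _ h h' := JetRel.mul h h'
  dflt := JetRel.const Ball.in_zero

private theorem ball_bases (tb : Ball) (t : ℝ) (ht : tb.In t) (S : List Sym) (i : ℕ) :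
    (get ⟨0, 0⟩ (bases (ballAlg [] ⟨0, 0⟩ ⟨0, 0⟩) tb S) i).In (nom S t i) := by
  have h := bases_rel (A := ballAlg [] ⟨0, 0⟩ ⟨0, 0⟩) (B := realAlg (fun _ => 0) 0 0)
    (R := Ball.In) (fun z e => Ball.in_cst z e) (fun _ _ _ _ h h' => Ball.in_add h h')
    (fun _ _ _ _ h h' => Ball.in_mul h h') tb t ht ⟨0, 0⟩ 0 Ball.in_zero S i
  rw [get_bases_real] at h
  exact h

theorem MT_sound (Z : Zone) (S : List Sym) (P : List Op) (t x y : ℝ) (h : Z.Mem t x y) :
    D2Le (fun τ => res (realAlg (nom S τ) x y) P) ((Z.aT : ℝ) / 2 ^ Z.eT)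
      ((Z.aT + Z.sT * Z.nT : ℝ) / 2 ^ Z.eT) ((Z.MT S P : ℝ) / 2 ^ 48) := by
  obtain ⟨-, -, hx1, hx2, hy1, hy2⟩ := h
  set I := Set.Icc ((Z.aT : ℝ) / 2 ^ Z.eT) ((Z.aT + Z.sT * Z.nT : ℝ) / 2 ^ Z.eT) with hI
  have hxb : JetRel I Z.xb.cj (fun _ => x) := JetRel.const (in_box _ _ _ _ _ hx1 hx2)
  have hyb : JetRel I Z.yb.cj (fun _ => y) := JetRel.const (in_box _ _ _ _ _ hy1 hy2)
  have htb : JetRel I Z.tb.vj (fun τ => τ) :=
    JetRel.var fun τ hτ => in_box _ _ _ _ _ hτ.1 hτ.2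
  have hbase : ∀ i, JetRel I (get ⟨⟨0, 0⟩, ⟨0, 0⟩, ⟨0, 0⟩⟩
      (bases (jetAlg [] Z.xb.cj Z.yb.cj) Z.tb.vj S) i) (fun τ => nom S τ i) := by
    intro i
    have h1 := bases_rel (A := jetAlg [] Z.xb.cj Z.yb.cj)
      (B := fnAlg (fun _ _ => 0) (fun _ => x) (fun _ => y)) (R := JetRel I)
      (fun z e => JetRel.const (Ball.in_cst z e)) (fun _ _ _ _ h h' => JetRel.add h h')
      (fun _ _ _ _ h h' => JetRel.mul h h') Z.tb.vj (fun τ => τ) htb
      ⟨⟨0, 0⟩, ⟨0, 0⟩, ⟨0, 0⟩⟩ (fun _ => 0) (JetRel.const Ball.in_zero) S i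
    rw [get_bases_fn] at h1
    exact h1
  have h2 := res_rel (jet_alg I _ _ _ (fun i τ => nom S τ i) (fun _ => x) (fun _ => y)
    hbase hxb hyb) P
  have h3 : res (fnAlg (fun i τ => nom S τ i) (fun _ => x) (fun _ => y)) P =
      fun τ => res (realAlg (nom S τ) x y) P := by
    funext τ
    exact res_fn _ _ _ P τ
  rw [h3] at h2
  exact d2le_of_jet h2

theorem MX_sound (Z : Zone) (S : List Sym) (P : List Op) (t x y : ℝ) (h : Z.Mem t x y) :
    D2Le (fun τ => res (realAlg (nom S t) τ y) P) ((Z.aX : ℝ) / 2 ^ Z.eX)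
      ((Z.aX + Z.sX * Z.nX : ℝ) / 2 ^ Z.eX) ((Z.MX S P : ℝ) / 2 ^ 48) := by
  obtain ⟨ht1, ht2, -, -, hy1, hy2⟩ := h
  set I := Set.Icc ((Z.aX : ℝ) / 2 ^ Z.eX) ((Z.aX + Z.sX * Z.nX : ℝ) / 2 ^ Z.eX) with hI
  have hxb : JetRel I Z.xb.vj (fun τ => τ) :=
    JetRel.var fun τ hτ => in_box _ _ _ _ _ hτ.1 hτ.2
  have hyb : JetRel I Z.yb.cj (fun _ => y) := JetRel.const (in_box _ _ _ _ _ hy1 hy2)
  have hbase : ∀ i, JetRel I (get ⟨⟨0, 0⟩, ⟨0, 0⟩, ⟨0, 0⟩⟩
      (cjs (bases (ballAlg [] ⟨0, 0⟩ ⟨0, 0⟩) Z.tb S)) i) (fun _ => nom S t i) := by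
    intro i
    rw [get_cjs]
    exact JetRel.const (ball_bases Z.tb t (in_box _ _ _ _ _ ht1 ht2) S i)
  have h2 := res_rel (jet_alg I _ _ _ (fun i _ => nom S t i) (fun τ => τ) (fun _ => y)
    hbase hxb hyb) P
  have h3 : res (fnAlg (fun i _ => nom S t i) (fun τ => τ) (fun _ => y)) P =
      fun τ => res (realAlg (nom S t) τ y) P := by
    funext τ
    exact res_fn _ _ _ P τ
  rw [h3] at h2
  exact d2le_of_jet h2

theorem MY_sound (Z : Zone) (S : List Sym) (P : List Op) (t x y : ℝ) (h : Z.Mem t x y) :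
    D2Le (fun τ => res (realAlg (nom S t) x τ) P) ((Z.aY : ℝ) / 2 ^ Z.eY)
      ((Z.aY + Z.sY * Z.nY : ℝ) / 2 ^ Z.eY) ((Z.MY S P : ℝ) / 2 ^ 48) := by
  obtain ⟨ht1, ht2, hx1, hx2, -, -⟩ := h
  set I := Set.Icc ((Z.aY : ℝ) / 2 ^ Z.eY) ((Z.aY + Z.sY * Z.nY : ℝ) / 2 ^ Z.eY) with hI
  have hxb : JetRel I Z.xb.cj (fun _ => x) := JetRel.const (in_box _ _ _ _ _ hx1 hx2)
  have hyb : JetRel I Z.yb.vj (fun τ => τ) :=
    JetRel.var fun τ hτ => in_box _ _ _ _ _ hτ.1 hτ.2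
  have hbase : ∀ i, JetRel I (get ⟨⟨0, 0⟩, ⟨0, 0⟩, ⟨0, 0⟩⟩
      (cjs (bases (ballAlg [] ⟨0, 0⟩ ⟨0, 0⟩) Z.tb S)) i) (fun _ => nom S t i) := by
    intro i
    rw [get_cjs]
    exact JetRel.const (ball_bases Z.tb t (in_box _ _ _ _ _ ht1 ht2) S i)
  have h2 := res_rel (jet_alg I _ _ _ (fun i _ => nom S t i) (fun _ => x) (fun τ => τ)
    hbase hxb hyb) P
  have h3 : res (fnAlg (fun i _ => nom S t i) (fun _ => x) (fun τ => τ)) P =
      fun τ => res (realAlg (nom S t) x τ) P := by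
    funext τ
    exact res_fn _ _ _ P τ
  rw [h3] at h2
  exact d2le_of_jet h2

/-- pairs of real interpretations -/
private noncomputable def pAlg (β β' : ℕ → ℝ) (x y : ℝ) : Alg (ℝ × ℝ) where
  cst z e := (z / 2 ^ e, z / 2 ^ e)
  base i := (β i, β' i)
  x := (x, x)
  y := (y, y)
  add a b := (a.1 + b.1, a.2 + b.2)
  sub a b := (a.1 - b.1, a.2 - b.2)
  mul a b := (a.1 * b.1, a.2 * b.2)
  dflt := (0, 0)

private theorem res_p (β β' : ℕ → ℝ) (x y : ℝ) (P : List Op) :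
    (res (pAlg β β' x y) P).1 = res (realAlg β x y) P ∧
      (res (pAlg β β' x y) P).2 = res (realAlg β' x y) P := by
  constructor
  · refine res_rel (A := pAlg β β' x y) (B := realAlg β x y) (R := fun p r => p.1 = r) ?_ P
    exact
      { cst := fun _ _ => rfl
        base := fun _ => rfl
        x := rfl
        y := rfl
        add := fun a b a' b' h h' => by
          change a.1 + b.1 = a' + b'
          rw [h, h']
        sub := fun a b a' b' h h' => by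
          change a.1 - b.1 = a' - b'
          rw [h, h']
        mul := fun a b a' b' h h' => by
          change a.1 * b.1 = a' * b'
          rw [h, h']
        dflt := rfl }
  · refine res_rel (A := pAlg β β' x y) (B := realAlg β' x y) (R := fun p r => p.2 = r) ?_ P
    exact
      { cst := fun _ _ => rfl
        base := fun _ => rfl
        x := rfl
        y := rfl
        add := fun a b a' b' h h' => by
          change a.2 + b.2 = a' + b'
          rw [h, h']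
        sub := fun a b a' b' h h' => by
          change a.2 - b.2 = a' - b'
          rw [h, h']
        mul := fun a b a' b' h h' => by
          change a.2 * b.2 = a' * b'
          rw [h, h']
        dflt := rfl }

private theorem in_enlarge {a : Ball} {v w : ℝ} {eps : ℕ} (h : a.In v)
    (hw : |w - v| ≤ (eps : ℝ) / 2 ^ 60) :
    (⟨a.c, Nat.add a.r (Nat.add (Nat.div eps 4096) 1)⟩ : Ball).In w := by
  unfold Ball.In at h ⊢
  have h1 : |w * 2 ^ 48 - (a.c : ℝ)| ≤ |v * 2 ^ 48 - (a.c : ℝ)| + |w - v| * 2 ^ 48 := by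
    have h2 : w * 2 ^ 48 - (a.c : ℝ) = (v * 2 ^ 48 - (a.c : ℝ)) + (w - v) * 2 ^ 48 := by ring
    rw [h2]
    refine (abs_add_le _ _).trans (le_of_eq ?_)
    rw [abs_mul, abs_of_pos (show (0 : ℝ) < 2 ^ 48 by positivity)]
  have h3 : |w - v| * 2 ^ 48 ≤ (eps : ℝ) / 4096 := by
    calc |w - v| * 2 ^ 48 ≤ (eps : ℝ) / 2 ^ 60 * 2 ^ 48 :=
          mul_le_mul_of_nonneg_right hw (by positivity)
      _ = (eps : ℝ) / 4096 := by
          norm_num
          ring
  have h4 : (eps : ℝ) / 4096 ≤ ((eps / 4096 + 1 : ℕ) : ℝ) := by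
    rw [div_le_iff₀ (by norm_num)]
    have h5 : eps ≤ (eps / 4096 + 1) * 4096 := by omega
    exact_mod_cast h5
  have h6 : ((Nat.add a.r (Nat.add (Nat.div eps 4096) 1) : ℕ) : ℝ) =
      (a.r : ℝ) + ((eps / 4096 + 1 : ℕ) : ℝ) := by
    have h7 : Nat.add a.r (Nat.add (Nat.div eps 4096) 1) = a.r + (eps / 4096 + 1) := rfl
    rw [h7]
    push_cast
    ring
  change |w * 2 ^ 48 - (a.c : ℝ)| ≤ ((Nat.add a.r (Nat.add (Nat.div eps 4096) 1) : ℕ) : ℝ)
  rw [h6]
  exact h1.trans (add_le_add h (h3.trans h4))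

private theorem dif_bases (tb : Ball) (t : ℝ) (ht : tb.In t) (S : List Sym) (b : ℝ) (i : ℕ)
    (h : |b - pval (get ⟨[], 0⟩ S i).p t| ≤ ((get ⟨[], 0⟩ S i).eps : ℝ) / 2 ^ 60) :
    DifRel (get ⟨⟨0, 0⟩, 0⟩ (difBases tb S) i) (b, pval (get ⟨[], 0⟩ S i).p t) := by
  induction S generalizing i with
  | nil =>
    have h1 : |b - 0| ≤ ((0 : ℕ) : ℝ) / 2 ^ 60 := h
    have h2 : b = 0 := by
      rw [sub_zero, Nat.cast_zero, zero_div] at h1
      exact abs_nonpos_iff.1 h1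
    have h3 : DifRel (⟨⟨0, 0⟩, 0⟩ : Dif) (b, 0) := by
      rw [h2]
      refine ⟨Ball.in_zero, Ball.in_zero, ?_⟩
      simp
    exact h3
  | cons s S ih =>
    cases i with
    | zero =>
      have h1 : |b - pval s.p t| ≤ (s.eps : ℝ) / 2 ^ 60 := h
      have h2 : (horner (ballAlg [] ⟨0, 0⟩ ⟨0, 0⟩) tb s.p).In (pval s.p t) := by
        have h3 := horner_rel (A := ballAlg [] ⟨0, 0⟩ ⟨0, 0⟩) (B := realAlg (fun _ => 0) 0 0)
          (R := Ball.In) (fun z e => Ball.in_cst z e) (fun _ _ _ _ h h' => Ball.in_add h h')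
          (fun _ _ _ _ h h' => Ball.in_mul h h') tb t ht s.p
        rw [horner_real] at h3
        exact h3
      have h5 : |pval s.p t - pval s.p t| ≤ (s.eps : ℝ) / 2 ^ 60 := by
        rw [sub_self, abs_zero]
        positivity
      refine ⟨in_enlarge h2 h1, in_enlarge h2 h5, ?_⟩
      have h4 : |b - pval s.p t| * 2 ^ 60 ≤ (s.eps : ℝ) := by
        rwa [le_div_iff₀ (by positivity)] at h1
      exact h4
    | succ i => exact ih i h

theorem err_sound (Z : Zone) (S : List Sym) (P : List Op) (t x y : ℝ) (h : Z.Mem t x y)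
    (β : ℕ → ℝ) (hβ : Encl S t β) :
    |res (realAlg β x y) P - res (realAlg (nom S t) x y) P| ≤ (Z.err S P : ℝ) / 2 ^ 60 := by
  obtain ⟨ht1, ht2, hx1, hx2, hy1, hy2⟩ := h
  have hself : ∀ (a : Ball) (v : ℝ), a.In v → DifRel ⟨a, 0⟩ (v, v) := by
    intro a v hv
    refine ⟨hv, hv, ?_⟩
    simp
  have halg : RelAlg (difAlg (difBases Z.tb S) ⟨Z.xb, 0⟩ ⟨Z.yb, 0⟩) (pAlg β (nom S t) x y) DifRel :=
    { cst := fun z e => hself _ _ (Ball.in_cst z e)
      base := fun i => dif_bases Z.tb t (in_box _ _ _ _ _ ht1 ht2) S (β i) i (hβ i)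
      x := hself _ _ (in_box _ _ _ _ _ hx1 hx2)
      y := hself _ _ (in_box _ _ _ _ _ hy1 hy2)
      add := fun _ _ _ _ h h' => DifRel.add h h'
      sub := fun _ _ _ _ h h' => DifRel.sub h h'
      mul := fun _ _ _ _ h h' => DifRel.mul h h'
      dflt := hself _ _ Ball.in_zero }
  have h1 := (res_rel halg P).2.2
  rw [(res_p β (nom S t) x y P).1, (res_p β (nom S t) x y P).2] at h1
  rw [le_div_iff₀ (by positivity)]
  exact h1

end Pool.H47.Kc
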