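import Mathlib

/-!
# Kernel checker for polynomial inequalities on boxes: definitions

A straight-line program `P : List Op` computes a polynomial in base symbols `β i` and two
coordinates `x, y`.  The base symbols are enclosed by polynomials `p i` in a third variable `t`.
The check proves `0 ≤ res (realAlg β x y) P` for all `(t, x, y)` in a box and all `β` with
`|β i - p i t| ≤ ε i`:

* `|P(β) - P(p t)|` is bounded by running `P` on the pairs (`Dif`),
* the second derivatives of `P(p t, x, y)` are bounded by running `P` on jets of balls (`Jet`),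
* the values of `P(p t, x, y)` on a grid are obtained by packed evaluation: for a fixed `t` of the
  grid `P` is evaluated at `x = 2^bx`, `y = 2^by` (large numbers) over the integers (`Fx`), and the
  value at `x = c, y = d` is the residue modulo `2^bx - c` and then modulo `2^by - d`; the bounds
  which make the residues exact come from running `P` on absolute values (`Mj`).
-/

set_option autoImplicit false

namespace Pool.H47.Kc

/-- instructions; operands are positions in the stack of results, `0` is the last result -/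
inductive Op where
  | cst (z : Int) (e : Nat)
  | base (i : Nat)
  | x
  | y
  | add (a b : Nat)
  | sub (a b : Nat)
  | mul (a b : Nat)

/-- an interpretation of the instructions -/
structure Alg (α : Type) where
  cst : Int → Nat → α
  base : Nat → α
  x : α
  y : α
  add : α → α → α
  sub : α → α → α
  mul : α → α → α
  dflt : α

/-- list access -/
def get {α : Type} (d : α) : List α → Nat → α
  | [], _ => d
  | a :: _, 0 => a
  | _ :: l, n + 1 => get d l n

/-- one instruction -/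
def step {α : Type} (A : Alg α) (st : List α) : Op → α
  | .cst z e => A.cst z e
  | .base i => A.base i
  | .x => A.x
  | .y => A.y
  | .add a b => A.add (get A.dflt st a) (get A.dflt st b)
  | .sub a b => A.sub (get A.dflt st a) (get A.dflt st b)
  | .mul a b => A.mul (get A.dflt st a) (get A.dflt st b)

/-- run a program on a stack -/
def run {α : Type} (A : Alg α) : List Op → List α → List α
  | [], st => st
  | op :: P, st => run A P (step A st op :: st)

/-- the result of a program -/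
def res {α : Type} (A : Alg α) (P : List Op) : α := get A.dflt (run A P []) 0

/-- the real interpretation -/
noncomputable def realAlg (β : ℕ → ℝ) (x y : ℝ) : Alg ℝ where
  cst z e := z / 2 ^ e
  base := β
  x := x
  y := y
  add := fun a b => a + b
  sub := fun a b => a - b
  mul := fun a b => a * b
  dflt := 0

/-! ### base symbols: polynomials in `t` with dyadic coefficients -/

/-- a dyadic number `n / 2^e` -/
structure Fx where
  n : Int
  e : Nat

/-- value -/
noncomputable def Fx.val (a : Fx) : ℝ := a.n / 2 ^ a.e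

/-- value of the polynomial with coefficients `l` (constant term first) -/
noncomputable def pval : List Fx → ℝ → ℝ
  | [], _ => 0
  | a :: l, t => a.val + t * pval l t

/-- Horner's rule in an interpretation -/
def horner {α : Type} (A : Alg α) (t : α) : List Fx → α
  | [] => A.cst 0 0
  | a :: l => A.add (A.cst a.n a.e) (A.mul t (horner A t l))

/-- a base symbol: coefficients and error in units of `2^(-60)` -/
structure Sym where
  p : List Fx
  eps : Nat

/-- the base symbols `β` are enclosed by `S` at `t` (`β i = 0` for `i ≥ S.length`) -/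
def Encl (S : List Sym) (t : ℝ) (β : ℕ → ℝ) : Prop :=
  ∀ i, |β i - pval (get ⟨[], 0⟩ S i).p t| ≤ ((get ⟨[], 0⟩ S i).eps : ℝ) / 2 ^ 60

/-- the nominal base symbols -/
noncomputable def nom (S : List Sym) (t : ℝ) (i : ℕ) : ℝ := pval (get ⟨[], 0⟩ S i).p t

/-- base lists -/
def bases {α : Type} (A : Alg α) (t : α) : List Sym → List α
  | [] => []
  | s :: S => horner A t s.p :: bases A t S

/-! ### exact dyadic arithmetic -/

def Fx.add (a b : Fx) : Fx :=
  ⟨a.n * (2 : Int) ^ (Nat.sub b.e a.e) + b.n * (2 : Int) ^ (Nat.sub a.e b.e),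
    Nat.add a.e (Nat.sub b.e a.e)⟩

def Fx.sub (a b : Fx) : Fx :=
  ⟨a.n * (2 : Int) ^ (Nat.sub b.e a.e) - b.n * (2 : Int) ^ (Nat.sub a.e b.e),
    Nat.add a.e (Nat.sub b.e a.e)⟩

def Fx.mul (a b : Fx) : Fx := ⟨a.n * b.n, Nat.add a.e b.e⟩

/-- evaluation over dyadic numbers -/
def fxAlg (q : List Fx) (x y : Fx) : Alg Fx where
  cst z e := ⟨z, e⟩
  base i := get ⟨0, 0⟩ q i
  x := x
  y := y
  add := Fx.add
  sub := Fx.sub
  mul := Fx.mul
  dflt := ⟨0, 0⟩

/-- bound of the numerator, exponent -/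
structure Mj where
  n : Nat
  e : Nat

def Mj.add (a b : Mj) : Mj :=
  ⟨Nat.add (Nat.mul a.n (Nat.pow 2 (Nat.sub b.e a.e))) (Nat.mul b.n (Nat.pow 2 (Nat.sub a.e b.e))),
    Nat.add a.e (Nat.sub b.e a.e)⟩

def Mj.mul (a b : Mj) : Mj := ⟨Nat.mul a.n b.n, Nat.add a.e b.e⟩

/-- evaluation on absolute values -/
def mjAlg (q : List Mj) (x y : Mj) : Alg Mj where
  cst z e := ⟨z.natAbs, e⟩
  base i := get ⟨0, 0⟩ q i
  x := x
  y := y
  add := Mj.add
  sub := Mj.add
  mul := Mj.mul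
  dflt := ⟨0, 0⟩

/-! ### balls: `|v * 2^48 - c| ≤ r` -/

structure Ball where
  c : Int
  r : Nat

/-- `2^48` -/
def sc : Nat := 281474976710656

def Ball.In (a : Ball) (v : ℝ) : Prop := |v * 2 ^ 48 - (a.c : ℝ)| ≤ (a.r : ℝ)

def Ball.add (a b : Ball) : Ball := ⟨a.c + b.c, Nat.add a.r b.r⟩

def Ball.sub (a b : Ball) : Ball := ⟨a.c - b.c, Nat.add a.r b.r⟩

/-- absolute value bound (times `2^48`) -/
def Ball.mag (a : Ball) : Nat := Nat.add a.c.natAbs a.r

def Ball.mul (a b : Ball) : Ball :=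
  ⟨(a.c * b.c) / (sc : Int),
    Nat.add (Nat.div (Nat.add (Nat.mul a.c.natAbs b.r) (Nat.mul a.r b.mag)) sc) 2⟩

def Ball.ofCst (z : Int) (e : Nat) : Ball := ⟨(z * (sc : Int)) / ((2 : Int) ^ e), 1⟩

/-- the interval `[a / 2^e, b / 2^e]`, `a ≤ b` -/
def Ball.ofIcc (a b : Int) (e : Nat) : Ball :=
  ⟨((a + b) * (sc : Int)) / ((2 : Int) ^ (e + 1)),
    Nat.add (Nat.div (Nat.mul (b - a).natAbs sc) (Nat.pow 2 (e + 1))) 2⟩

/-- evaluation on balls -/
def ballAlg (q : List Ball) (x y : Ball) : Alg Ball where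
  cst := Ball.ofCst
  base i := get ⟨0, 0⟩ q i
  x := x
  y := y
  add := Ball.add
  sub := Ball.sub
  mul := Ball.mul
  dflt := ⟨0, 0⟩

/-! ### jets: value, first and second derivative in one direction -/

structure Jet where
  a : Ball
  b : Ball
  d : Ball

def Jet.add (f g : Jet) : Jet := ⟨f.a.add g.a, f.b.add g.b, f.d.add g.d⟩

def Jet.sub (f g : Jet) : Jet := ⟨f.a.sub g.a, f.b.sub g.b, f.d.sub g.d⟩

def Ball.dbl (a : Ball) : Ball := ⟨a.c + a.c, Nat.add a.r a.r⟩

def Jet.mul (f g : Jet) : Jet :=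
  ⟨f.a.mul g.a, (f.a.mul g.b).add (f.b.mul g.a),
    ((f.a.mul g.d).add (f.d.mul g.a)).add (f.b.mul g.b).dbl⟩

/-- evaluation on jets -/
def jetAlg (q : List Jet) (x y : Jet) : Alg Jet where
  cst z e := ⟨Ball.ofCst z e, ⟨0, 0⟩, ⟨0, 0⟩⟩
  base i := get ⟨⟨0, 0⟩, ⟨0, 0⟩, ⟨0, 0⟩⟩ q i
  x := x
  y := y
  add := Jet.add
  sub := Jet.sub
  mul := Jet.mul
  dflt := ⟨⟨0, 0⟩, ⟨0, 0⟩, ⟨0, 0⟩⟩

/-! ### pairs: common ball of two numbers and bound (times `2^60`) of their difference -/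

structure Dif where
  a : Ball
  d : Nat

def Dif.add (f g : Dif) : Dif := ⟨f.a.add g.a, Nat.add f.d g.d⟩

def Dif.sub (f g : Dif) : Dif := ⟨f.a.sub g.a, Nat.add f.d g.d⟩

def Dif.mul (f g : Dif) : Dif :=
  ⟨f.a.mul g.a, Nat.add (Nat.div (Nat.add (Nat.mul f.a.mag g.d) (Nat.mul f.d g.a.mag)) sc) 1⟩

/-- evaluation on pairs -/
def difAlg (q : List Dif) (x y : Dif) : Alg Dif where
  cst z e := ⟨Ball.ofCst z e, 0⟩
  base i := get ⟨⟨0, 0⟩, 0⟩ q i
  x := x
  y := y
  add := Dif.add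
  sub := Dif.sub
  mul := Dif.mul
  dflt := ⟨⟨0, 0⟩, 0⟩

/-- base symbols: nominal ball enlarged by the error -/
def difBases (tb : Ball) : List Sym → List Dif
  | [] => []
  | s :: S =>
    (fun b : Ball => (⟨⟨b.c, Nat.add b.r (Nat.add (Nat.div s.eps 4096) 1)⟩, s.eps⟩ : Dif))
      (horner (ballAlg [] ⟨0, 0⟩ ⟨0, 0⟩) tb s.p) :: difBases tb S

/-! ### zones -/

/-- grid `t = (aT + sT i) / 2^eT` (`0 ≤ i ≤ nT`) etc.; `bx, by` sizes of the packing -/
structure Zone where
  eT : Nat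
  eX : Nat
  eY : Nat
  aT : Int
  aX : Int
  aY : Int
  sT : Nat
  sX : Nat
  sY : Nat
  nT : Nat
  nX : Nat
  nY : Nat
  bx : Nat
  by' : Nat

/-- membership in the box of a zone -/
def Zone.Mem (Z : Zone) (t x y : ℝ) : Prop :=
  (Z.aT : ℝ) / 2 ^ Z.eT ≤ t ∧ t ≤ (Z.aT + Z.sT * Z.nT : ℝ) / 2 ^ Z.eT ∧
  (Z.aX : ℝ) / 2 ^ Z.eX ≤ x ∧ x ≤ (Z.aX + Z.sX * Z.nX : ℝ) / 2 ^ Z.eX ∧
  (Z.aY : ℝ) / 2 ^ Z.eY ≤ y ∧ y ≤ (Z.aY + Z.sY * Z.nY : ℝ) / 2 ^ Z.eY

def Zone.tb (Z : Zone) : Ball := Ball.ofIcc Z.aT (Z.aT + (Nat.mul Z.sT Z.nT : Nat)) Z.eT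
def Zone.xb (Z : Zone) : Ball := Ball.ofIcc Z.aX (Z.aX + (Nat.mul Z.sX Z.nX : Nat)) Z.eX
def Zone.yb (Z : Zone) : Ball := Ball.ofIcc Z.aY (Z.aY + (Nat.mul Z.sY Z.nY : Nat)) Z.eY

/-- a ball as a constant jet -/
def Ball.cj (a : Ball) : Jet := ⟨a, ⟨0, 0⟩, ⟨0, 0⟩⟩

/-- a ball as the jet of the variable -/
def Ball.vj (a : Ball) : Jet := ⟨a, ⟨(sc : Int), 0⟩, ⟨0, 0⟩⟩

def cjs : List Ball → List Jet
  | [] => []
  | a :: l => a.cj :: cjs l

/-- upper bound of the second derivative in the direction `t` (times `2^48`) -/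
def Zone.MT (Z : Zone) (S : List Sym) (P : List Op) : Nat :=
  (fun j : Jet => (j.d.c + j.d.r).toNat)
    (res (jetAlg (bases (jetAlg [] Z.xb.cj Z.yb.cj) Z.tb.vj S) Z.xb.cj Z.yb.cj) P)

def Zone.MX (Z : Zone) (S : List Sym) (P : List Op) : Nat :=
  (fun j : Jet => (j.d.c + j.d.r).toNat)
    (res (jetAlg (cjs (bases (ballAlg [] ⟨0, 0⟩ ⟨0, 0⟩) Z.tb S)) Z.xb.vj Z.yb.cj) P)

def Zone.MY (Z : Zone) (S : List Sym) (P : List Op) : Nat :=
  (fun j : Jet => (j.d.c + j.d.r).toNat)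
    (res (jetAlg (cjs (bases (ballAlg [] ⟨0, 0⟩ ⟨0, 0⟩) Z.tb S)) Z.xb.cj Z.yb.vj) P)

/-- bound of the difference of actual and nominal value (times `2^60`) -/
def Zone.err (Z : Zone) (S : List Sym) (P : List Op) : Nat :=
  (res (difAlg (difBases Z.tb S) ⟨Z.xb, 0⟩ ⟨Z.yb, 0⟩) P).d

/-- `M h^2 / 8` in units of `2^(-60)`, rounded up -/
def gap (M s e : Nat) : Nat :=
  Nat.add (Nat.div (Nat.mul (Nat.mul M (Nat.mul s s)) 512) (Nat.pow 2 (Nat.mul 2 e))) 1

/-- threshold in units of `2^(-60)` -/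
def Zone.thr (Z : Zone) (S : List Sym) (P : List Op) : Nat :=
  Nat.add (Nat.add (gap (Z.MT S P) Z.sT Z.eT) (gap (Z.MX S P) Z.sX Z.eX))
    (Nat.add (gap (Z.MY S P) Z.sY Z.eY) (Z.err S P))

/-! ### packed evaluation on the grid -/

/-- innermost loop: `a` is the absolute value of the packed number, `m = 2^by - d` -/
def loopY (neg : Bool) (a T H s : Nat) : Nat → Nat → Bool
  | 0, m =>
    (fun v : Nat => (Nat.ble T v).and (Nat.ble v H))
      (cond neg (Nat.sub m (Nat.mod a m)) (Nat.mod a m))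
  | k + 1, m =>
    ((fun v : Nat => (Nat.ble T v).and (Nat.ble v H))
      (cond neg (Nat.sub m (Nat.mod a m)) (Nat.mod a m))).and (loopY neg a T H s k (Nat.sub m s))

/-- loop over `x`: `N` the packed integer, `m = 2^bx - c` -/
def loopX (N : Int) (T HX HY sX sY nY mY : Nat) : Nat → Nat → Bool
  | 0, m =>
    (fun v : Nat => cond (Nat.ble v HX) (loopY false v T HY sY nY mY)
      (loopY true (Nat.sub m v) T HY sY nY mY)) (N % (m : Int)).toNat
  | k + 1, m =>
    ((fun v : Nat => cond (Nat.ble v HX) (loopY false v T HY sY nY mY)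
      (loopY true (Nat.sub m v) T HY sY nY mY)) (N % (m : Int)).toNat).and
      (loopX N T HX HY sX sY nY mY k (Nat.sub m sX))

/-- the list of the base symbols at the point `n / 2^e` -/
def fxBases (S : List Sym) (n : Int) (e : Nat) : List Fx :=
  bases (fxAlg [] ⟨0, 0⟩ ⟨0, 0⟩) ⟨n, e⟩ S

/-- one slice -/
def slice (Z : Zone) (S : List Sym) (P : List Op) (thr E HX HY : Nat) (n : Int) : Bool :=
  (fun r : Fx =>
    (Nat.beq r.e E).and
      (loopX r.n (Nat.add (Nat.div (Nat.mul thr (Nat.pow 2 E)) (Nat.pow 2 60)) 1) HX HY Z.sX Z.sY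
        Z.nY ((2 : Int) ^ Z.by' - Z.aY).toNat Z.nX ((2 : Int) ^ Z.bx - Z.aX).toNat))
    (res (fxAlg (fxBases S n Z.eT) ⟨(2 : Int) ^ Z.bx, Z.eX⟩ ⟨(2 : Int) ^ Z.by', Z.eY⟩) P)

def loopT (Z : Zone) (S : List Sym) (P : List Op) (thr E HX HY : Nat) : Nat → Int → Bool
  | 0, n => slice Z S P thr E HX HY n
  | k + 1, n => (slice Z S P thr E HX HY n).and (loopT Z S P thr E HX HY k (n + Z.sT))

/-- bound of the absolute values of the numerators of a coordinate in the zone -/
def absMax (a : Int) (s n : Nat) : Nat := Nat.add a.natAbs (Nat.mul s n)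

def Zone.mjb (Z : Zone) (S : List Sym) : List Mj :=
  bases (mjAlg [] ⟨0, 0⟩ ⟨0, 0⟩) ⟨absMax Z.aT Z.sT Z.nT, Z.eT⟩ S

/-- bound of the numerators for `y` in the zone and `x` in the zone -/
def Zone.mjY (Z : Zone) (S : List Sym) (P : List Op) : Mj :=
  res (mjAlg (Z.mjb S) ⟨absMax Z.aX Z.sX Z.nX, Z.eX⟩ ⟨absMax Z.aY Z.sY Z.nY, Z.eY⟩) P

/-- bound of the numerators for `x` in the zone and `y = 2^by` -/
def Zone.mjX (Z : Zone) (S : List Sym) (P : List Op) : Mj :=
  res (mjAlg (Z.mjb S) ⟨absMax Z.aX Z.sX Z.nX, Z.eX⟩ ⟨Nat.pow 2 Z.by', Z.eY⟩) P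

/-- the packing is large enough -/
def Zone.big (Z : Zone) (HX HY : Nat) : Bool :=
  (Nat.ble (Nat.add (Nat.add (Nat.mul 2 HY) (absMax Z.aY Z.sY Z.nY)) 2) (Nat.pow 2 Z.by')).and
    (Nat.ble (Nat.add (Nat.add (Nat.mul 2 HX) (absMax Z.aX Z.sX Z.nX)) 2) (Nat.pow 2 Z.bx))

/-- the complete check of a zone -/
def check (Z : Zone) (S : List Sym) (P : List Op) : Bool :=
  (fun hY hX : Mj => (Z.big hX.n hY.n).and
    (loopT Z S P (Z.thr S P) hY.e hX.n hY.n Z.nT Z.aT)) (Z.mjY S P) (Z.mjX S P)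

end Pool.H47.Kc
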