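import Pool.Agent.H47.Kc.Pack

/-! # Loop: the packed evaluation gives lower bounds at all grid points

`loopY_sound`: with `m_i = m - s i`, `v = a mod m_i` (or `m_i - a mod m_i`) the loop checks
`T ≤ v ≤ H`.  If `N3 ≡ N2 (mod m_i)`, `N2 = a` (or `-a`), `|N3| ≤ H`, `2 H < m_i` then `v = N3`.
`loopX_sound`: `v = N mod m_j`; `N2 ≡ N (mod m_j)`, `|N2| ≤ HX`, `2 HX < m_j`: if `v ≤ HX` then
`N2 = v`, otherwise `N2 = v - m_j`. -/

set_option autoImplicit false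

namespace Pool.H47.Kc

private theorem Loop_chk (T H v : ℕ) (h : (Nat.ble T v).and (Nat.ble v H) = true) :
    T ≤ v ∧ v ≤ H := by
  have h' : Nat.ble T v = true ∧ Nat.ble v H = true := by
    cases h1 : Nat.ble T v <;> cases h2 : Nat.ble v H <;> simp_all
  exact ⟨Nat.le_of_ble_eq_true h'.1, Nat.le_of_ble_eq_true h'.2⟩

private theorem Loop_and (a b : Bool) (h : a.and b = true) : a = true ∧ b = true := by
  cases a <;> cases b <;> simp_all

private theorem Loop_Y (neg : Bool) (a T H s : ℕ) (k : ℕ) : ∀ m : ℕ,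
    loopY neg a T H s k m = true → ∀ i ≤ k,
    T ≤ cond neg ((m - s * i) - a % (m - s * i)) (a % (m - s * i)) ∧
      cond neg ((m - s * i) - a % (m - s * i)) (a % (m - s * i)) ≤ H := by
  induction k with
  | zero =>
    intro m h i hi
    obtain rfl : i = 0 := by omega
    rw [mul_zero, Nat.sub_zero]
    exact Loop_chk T H _ h
  | succ k ih =>
    intro m h i hi
    have h' := Loop_and _ _ h
    cases i with
    | zero =>
      rw [mul_zero, Nat.sub_zero]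
      exact Loop_chk T H _ h'.1
    | succ i =>
      have := ih (m - s) h'.2 i (by omega)
      rw [show m - s - s * i = m - s * (i + 1) by rw [Nat.sub_sub]; congr 1; ring] at this
      exact this

private theorem Loop_uniq (x y : ℤ) (m : ℤ) (hd : m ∣ x - y) (h1 : x - y < m) (h2 : y - x < m) :
    x = y := by
  have h3 : |x - y| < m := abs_lt.mpr ⟨by linarith, h1⟩
  have := Int.eq_zero_of_abs_lt_dvd hd h3
  linarith

theorem loopY_sound (neg : Bool) (a T H s : ℕ) (k m : ℕ) (h : loopY neg a T H s k m = true)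
    (i : ℕ) (hi : i ≤ k) (hm : 2 * H < m - s * i) (hsm : s * k ≤ m) (N3 : ℤ)
    (hN : ((m - s * i : ℕ) : ℤ) ∣ (cond neg (-(a : ℤ)) a) - N3) (hH : N3.natAbs ≤ H) :
    (T : ℤ) ≤ N3 := by
  have hc := Loop_Y neg a T H s k m h i hi
  generalize m - s * i = M at hc hm hN
  have hmod : ((a % M : ℕ) : ℤ) = a - M * (a / M : ℕ) := by
    have := Nat.div_add_mod a M
    have h2 : ((M * (a / M) + a % M : ℕ) : ℤ) = (a : ℤ) := by rw [this]
    push_cast at h2 ⊢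
    linarith
  have hlt : a % M < M := Nat.mod_lt _ (by omega)
  cases neg with
  | false =>
    simp only [cond_false] at hc hN
    have h1 : N3 = ((a % M : ℕ) : ℤ) := by
      apply Loop_uniq _ _ (M : ℤ)
      · have e : N3 - ((a % M : ℕ) : ℤ) = -((a : ℤ) - N3) + M * (a / M : ℕ) := by
          rw [hmod]; ring
        rw [e]
        exact dvd_add (Dvd.dvd.neg_right hN) (dvd_mul_right _ _)
      · omega
      · omega
    rw [h1]
    exact_mod_cast hc.1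
  | true =>
    simp only [cond_true] at hc hN
    have h1 : N3 = ((M - a % M : ℕ) : ℤ) := by
      apply Loop_uniq _ _ (M : ℤ)
      · have e : N3 - ((M - a % M : ℕ) : ℤ) = -((-(a : ℤ)) - N3) - M * (a / M : ℕ) - M := by
          rw [Nat.cast_sub hlt.le, hmod]; ring
        rw [e]
        exact dvd_sub (dvd_sub (Dvd.dvd.neg_right hN) (dvd_mul_right _ _)) dvd_rfl
      · omega
      · omega
    rw [h1]
    exact_mod_cast hc.1

private theorem Loop_X (N : ℤ) (T HX HY sX sY nY mY : ℕ) (k : ℕ) : ∀ m : ℕ,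
    loopX N T HX HY sX sY nY mY k m = true → ∀ j ≤ k,
    cond (Nat.ble (N % ((m - sX * j : ℕ) : ℤ)).toNat HX)
      (loopY false (N % ((m - sX * j : ℕ) : ℤ)).toNat T HY sY nY mY)
      (loopY true ((m - sX * j) - (N % ((m - sX * j : ℕ) : ℤ)).toNat) T HY sY nY mY) = true := by
  induction k with
  | zero =>
    intro m h j hj
    obtain rfl : j = 0 := by omega
    rw [mul_zero, Nat.sub_zero]
    exact h
  | succ k ih =>
    intro m h j hj
    have h' := Loop_and _ _ h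
    cases j with
    | zero =>
      rw [mul_zero, Nat.sub_zero]
      exact h'.1
    | succ j =>
      have := ih (m - sX) h'.2 j (by omega)
      rw [show m - sX - sX * j = m - sX * (j + 1) by rw [Nat.sub_sub]; congr 1; ring] at this
      exact this

theorem loopX_sound (N : ℤ) (T HX HY sX sY nY mY : ℕ) (k m : ℕ)
    (h : loopX N T HX HY sX sY nY mY k m = true) (j : ℕ) (hj : j ≤ k)
    (hm : 2 * HX < m - sX * j) (hsm : sX * k ≤ m) (N2 : ℤ)
    (hN : ((m - sX * j : ℕ) : ℤ) ∣ N - N2) (hH : N2.natAbs ≤ HX) :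
    (0 ≤ N2 ∧ loopY false N2.natAbs T HY sY nY mY = true) ∨
      (N2 ≤ 0 ∧ loopY true N2.natAbs T HY sY nY mY = true) := by
  have hc := Loop_X N T HX HY sX sY nY mY k m h j hj
  generalize m - sX * j = M at hc hm hN
  have hM : (0 : ℤ) < M := by exact_mod_cast (by omega : 0 < M)
  have hv0 : 0 ≤ N % (M : ℤ) := Int.emod_nonneg _ hM.ne'
  have hvM : N % (M : ℤ) < M := Int.emod_lt_of_pos _ hM
  have hdv : (M : ℤ) ∣ N2 - N % (M : ℤ) := by
    have e : N2 - N % (M : ℤ) = -(N - N2) + M * (N / (M : ℤ)) := by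
      have := Int.mul_ediv_add_emod N M
      linarith
    rw [e]
    exact dvd_add (Dvd.dvd.neg_right hN) (dvd_mul_right _ _)
  obtain ⟨v, hv⟩ : ∃ v : ℕ, N % (M : ℤ) = v := ⟨(N % (M : ℤ)).toNat, (Int.toNat_of_nonneg hv0).symm⟩
  rw [hv] at hc hvM hdv
  rw [Int.toNat_natCast] at hc
  by_cases hle : v ≤ HX
  · left
    have hb : Nat.ble v HX = true := Nat.ble_eq_true_of_le hle
    rw [hb, cond_true] at hc
    have h1 : N2 = (v : ℤ) := by
      apply Loop_uniq _ _ (M : ℤ) hdv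
      · omega
      · omega
    rw [h1]
    refine ⟨by omega, ?_⟩
    rw [Int.natAbs_natCast]
    exact hc
  · right
    have hb : Nat.ble v HX = false := by
      cases hb : Nat.ble v HX with
      | false => rfl
      | true => exact absurd (Nat.le_of_ble_eq_true hb) hle
    rw [hb, cond_false] at hc
    have h1 : N2 = (v : ℤ) - M := by
      apply Loop_uniq _ _ (M : ℤ)
      · have e : N2 - ((v : ℤ) - M) = (N2 - v) + M := by ring
        rw [e]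
        exact dvd_add hdv dvd_rfl
      · omega
      · omega
    refine ⟨by omega, ?_⟩
    have h2 : N2.natAbs = M - v := by omega
    rw [h2]
    exact hc

private theorem Loop_T (Z : Zone) (S : List Sym) (P : List Op) (thr E HX HY : ℕ) (k : ℕ) :
    ∀ n : ℤ, loopT Z S P thr E HX HY k n = true → ∀ i ≤ k,
    slice Z S P thr E HX HY (n + Z.sT * (i : ℤ)) = true := by
  induction k with
  | zero =>
    intro n h i hi
    obtain rfl : i = 0 := by omega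
    rw [Nat.cast_zero, mul_zero, add_zero]
    exact h
  | succ k ih =>
    intro n h i hi
    have h' := Loop_and _ _ h
    cases i with
    | zero =>
      rw [Nat.cast_zero, mul_zero, add_zero]
      exact h'.1
    | succ i =>
      have := ih (n + Z.sT) h'.2 i (by omega)
      rw [show n + Z.sT + Z.sT * (i : ℤ) = n + Z.sT * ((i + 1 : ℕ) : ℤ) by push_cast; ring] at this
      exact this

private theorem Loop_absMax (a : ℤ) (s n i : ℕ) (hi : i ≤ n) :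
    (a + s * (i : ℤ)).natAbs ≤ absMax a s n := by
  have h1 : s * i ≤ s * n := Nat.mul_le_mul_left s hi
  have h2 : absMax a s n = a.natAbs + s * n := rfl
  rw [h2]
  have h3 : ((s * i : ℕ) : ℤ) = s * (i : ℤ) := by push_cast; ring
  rw [← h3]
  generalize s * i = u at *
  generalize s * n = w at *
  omega

/-- all grid values are at least `thr / 2^60` -/
theorem grid_sound (Z : Zone) (S : List Sym) (P : List Op) (h : check Z S P = true)
    (i j k : ℕ) (hi : i ≤ Z.nT) (hj : j ≤ Z.nX) (hk : k ≤ Z.nY) :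
    (Z.thr S P : ℝ) / 2 ^ 60 ≤
      res (realAlg (nom S (((Z.aT : ℝ) + Z.sT * i) / 2 ^ Z.eT))
        (((Z.aX : ℝ) + Z.sX * j) / 2 ^ Z.eX) (((Z.aY : ℝ) + Z.sY * k) / 2 ^ Z.eY)) P := by
  have h0 : (Z.big (Z.mjX S P).n (Z.mjY S P).n).and
    (loopT Z S P (Z.thr S P) (Z.mjY S P).e (Z.mjX S P).n (Z.mjY S P).n Z.nT Z.aT) = true := h
  obtain ⟨hbig, hloop⟩ := Loop_and _ _ h0
  have hsl := Loop_T Z S P _ _ _ _ _ _ hloop i hi
  have hb' := Loop_and _ _ hbig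
  have hbY : 2 * (Z.mjY S P).n + absMax Z.aY Z.sY Z.nY + 2 ≤ 2 ^ Z.by' :=
    Nat.le_of_ble_eq_true hb'.1
  have hbX : 2 * (Z.mjX S P).n + absMax Z.aX Z.sX Z.nX + 2 ≤ 2 ^ Z.bx :=
    Nat.le_of_ble_eq_true hb'.2
  set n : ℤ := Z.aT + Z.sT * (i : ℤ) with hn
  set c : ℤ := Z.aX + Z.sX * (j : ℤ) with hc
  set d : ℤ := Z.aY + Z.sY * (k : ℤ) with hd
  have hcabs : c.natAbs ≤ absMax Z.aX Z.sX Z.nX := Loop_absMax _ _ _ _ hj
  have hdabs : d.natAbs ≤ absMax Z.aY Z.sY Z.nY := Loop_absMax _ _ _ _ hk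
  have hnabs : n.natAbs ≤ absMax Z.aT Z.sT Z.nT := Loop_absMax _ _ _ _ hi
  have hsl' := Loop_and _ _ hsl
  set q := fxBases S n Z.eT with hq
  set r := res (fxAlg q ⟨(2 : Int) ^ Z.bx, Z.eX⟩ ⟨(2 : Int) ^ Z.by', Z.eY⟩) P with hr
  set r1 := res (fxAlg q ⟨c, Z.eX⟩ ⟨(2 : Int) ^ Z.by', Z.eY⟩) P with hr1
  set r0 := res (fxAlg q ⟨c, Z.eX⟩ ⟨d, Z.eY⟩) P with hr0
  have hcx := fx_congr_x q ((2 : ℤ) ^ Z.bx) c Z.eX ⟨(2 : ℤ) ^ Z.by', Z.eY⟩ ((2 : ℤ) ^ Z.bx - c)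
    dvd_rfl P
  have hcy := fx_congr_y q ⟨c, Z.eX⟩ ((2 : ℤ) ^ Z.by') d Z.eY ((2 : ℤ) ^ Z.by' - d)
    dvd_rfl P
  rw [← hr, ← hr1] at hcx
  rw [← hr1, ← hr0] at hcy
  have hbd1 := mj_bound S n (absMax Z.aT Z.sT Z.nT) Z.eT hnabs ⟨c, Z.eX⟩ ⟨(2 : ℤ) ^ Z.by', Z.eY⟩
    ⟨absMax Z.aX Z.sX Z.nX, Z.eX⟩ ⟨Nat.pow 2 Z.by', Z.eY⟩ ⟨rfl, hcabs⟩
    ⟨rfl, by
      show ((2 : ℤ) ^ Z.by').natAbs ≤ 2 ^ Z.by'
      rw [Int.natAbs_pow]
      exact le_rfl⟩ P
  have hbd0 := mj_bound S n (absMax Z.aT Z.sT Z.nT) Z.eT hnabs ⟨c, Z.eX⟩ ⟨d, Z.eY⟩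
    ⟨absMax Z.aX Z.sX Z.nX, Z.eX⟩ ⟨absMax Z.aY Z.sY Z.nY, Z.eY⟩ ⟨rfl, hcabs⟩ ⟨rfl, hdabs⟩ P
  have hb1 : r1.n.natAbs ≤ (Z.mjX S P).n := hbd1.2
  have hb0 : r0.n.natAbs ≤ (Z.mjY S P).n := hbd0.2
  have he0 : (Z.mjY S P).e = r0.e := hbd0.1
  have hX : loopX r.n ((Z.thr S P) * 2 ^ (Z.mjY S P).e / 2 ^ 60 + 1) (Z.mjX S P).n
      (Z.mjY S P).n Z.sX Z.sY Z.nY ((2 : Int) ^ Z.by' - Z.aY).toNat Z.nX
      ((2 : Int) ^ Z.bx - Z.aX).toNat = true := hsl'.2
  have hamX : absMax Z.aX Z.sX Z.nX = Z.aX.natAbs + Z.sX * Z.nX := rfl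
  have hamY : absMax Z.aY Z.sY Z.nY = Z.aY.natAbs + Z.sY * Z.nY := rfl
  have hsj : Z.sX * j ≤ Z.sX * Z.nX := Nat.mul_le_mul_left _ hj
  have hsk : Z.sY * k ≤ Z.sY * Z.nY := Nat.mul_le_mul_left _ hk
  have hc2 : c = Z.aX + ((Z.sX * j : ℕ) : ℤ) := by rw [hc]; push_cast; ring
  have hd2 : d = Z.aY + ((Z.sY * k : ℕ) : ℤ) := by rw [hd]; push_cast; ring
  have hpX : ((2 : ℤ) ^ Z.bx) = ((2 ^ Z.bx : ℕ) : ℤ) := by push_cast; ring
  have hpY : ((2 : ℤ) ^ Z.by') = ((2 ^ Z.by' : ℕ) : ℤ) := by push_cast; ring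
  have hMX : ((((2 : ℤ) ^ Z.bx - Z.aX).toNat - Z.sX * j : ℕ) : ℤ) = (2 : ℤ) ^ Z.bx - c := by
    rw [hc2, hpX]
    generalize Z.sX * j = u at *
    generalize Z.sX * Z.nX = w at *
    generalize 2 ^ Z.bx = p at *
    omega
  have hMY : ((((2 : ℤ) ^ Z.by' - Z.aY).toNat - Z.sY * k : ℕ) : ℤ) = (2 : ℤ) ^ Z.by' - d := by
    rw [hd2, hpY]
    generalize Z.sY * k = u at *
    generalize Z.sY * Z.nY = w at *
    generalize 2 ^ Z.by' = p at *
    omega
  have hX2 := loopX_sound r.n _ _ _ _ _ _ _ _ _ hX j hj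
    (by
      have : (2 * ((Z.mjX S P).n : ℤ)) < (2 : ℤ) ^ Z.bx - c := by
        rw [hpX]
        generalize 2 ^ Z.bx = p at *
        omega
      rw [← hMX] at this
      exact_mod_cast this)
    (by
      rw [hpX]
      generalize Z.sX * Z.nX = w at *
      generalize 2 ^ Z.bx = p at *
      omega)
    r1.n (by rw [hMX]; exact hcx.2) hb1
  have hY : (((Z.thr S P) * 2 ^ (Z.mjY S P).e / 2 ^ 60 + 1 : ℕ) : ℤ) ≤ r0.n := by
    have hm2 : 2 * (Z.mjY S P).n < ((2 : ℤ) ^ Z.by' - Z.aY).toNat - Z.sY * k := by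
      have : (2 * ((Z.mjY S P).n : ℤ)) < (2 : ℤ) ^ Z.by' - d := by
        rw [hpY]
        generalize 2 ^ Z.by' = p at *
        omega
      rw [← hMY] at this
      exact_mod_cast this
    have hsm2 : Z.sY * Z.nY ≤ ((2 : ℤ) ^ Z.by' - Z.aY).toNat := by
      rw [hpY]
      generalize Z.sY * Z.nY = w at *
      generalize 2 ^ Z.by' = p at *
      omega
    rcases hX2 with ⟨hs, hl⟩ | ⟨hs, hl⟩
    · refine loopY_sound false _ _ _ _ _ _ hl k hk hm2 hsm2 r0.n ?_ hb0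
      rw [hMY, cond_false, Int.natAbs_of_nonneg hs]
      exact hcy.2
    · refine loopY_sound true _ _ _ _ _ _ hl k hk hm2 hsm2 r0.n ?_ hb0
      rw [hMY, cond_true, show (-(r1.n.natAbs : ℤ)) = r1.n by omega]
      exact hcy.2
  have hval := fx_val S n Z.eT ⟨c, Z.eX⟩ ⟨d, Z.eY⟩ P
  rw [← hq, ← hr0] at hval
  have e1 : ((n : ℝ) / 2 ^ Z.eT) = ((Z.aT : ℝ) + Z.sT * i) / 2 ^ Z.eT := by
    rw [hn]; push_cast; ring
  have e2 : (Fx.val ⟨c, Z.eX⟩) = ((Z.aX : ℝ) + Z.sX * j) / 2 ^ Z.eX := by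
    unfold Fx.val
    simp only
    rw [hc]; push_cast; ring
  have e3 : (Fx.val ⟨d, Z.eY⟩) = ((Z.aY : ℝ) + Z.sY * k) / 2 ^ Z.eY := by
    unfold Fx.val
    simp only
    rw [hd]; push_cast; ring
  rw [e1, e2, e3] at hval
  rw [← hval]
  unfold Fx.val
  rw [← he0, div_le_div_iff₀ (by positivity) (by positivity)]
  have hlt := Nat.lt_div_mul_add (a := Z.thr S P * 2 ^ (Z.mjY S P).e) (b := 2 ^ 60) (by positivity)
  have h5 : Z.thr S P * 2 ^ (Z.mjY S P).e ≤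
      (Z.thr S P * 2 ^ (Z.mjY S P).e / 2 ^ 60 + 1) * 2 ^ 60 := by
    rw [add_mul, one_mul]
    exact hlt.le
  have h6 : ((Z.thr S P * 2 ^ (Z.mjY S P).e : ℕ) : ℤ) ≤ r0.n * 2 ^ 60 := by
    calc ((Z.thr S P * 2 ^ (Z.mjY S P).e : ℕ) : ℤ)
        ≤ (((Z.thr S P * 2 ^ (Z.mjY S P).e / 2 ^ 60 + 1) * 2 ^ 60 : ℕ) : ℤ) := by
          exact_mod_cast h5
      _ = ((Z.thr S P * 2 ^ (Z.mjY S P).e / 2 ^ 60 + 1 : ℕ) : ℤ) * 2 ^ 60 := by
          rw [Nat.cast_mul]; norm_num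
      _ ≤ r0.n * 2 ^ 60 := by
          exact mul_le_mul_of_nonneg_right hY (by positivity)
  have h7 : (((Z.thr S P * 2 ^ (Z.mjY S P).e : ℕ) : ℤ) : ℝ) ≤ ((r0.n * 2 ^ 60 : ℤ) : ℝ) := by
    exact_mod_cast h6
  rw [Int.cast_natCast, Nat.cast_mul, Nat.cast_pow, Int.cast_mul, Int.cast_pow] at h7
  exact h7

end Pool.H47.Kc
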