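import Pool.Agent.H47.Kc.Loop
import Pool.Agent.H47.Kc.Interp

/-! # Main: soundness of the check -/

set_option autoImplicit false

namespace Pool.H47.Kc

private theorem Main_grid (a : ℤ) (s n e i : ℕ) (hi : i ≤ n) :
    (a : ℝ) / 2 ^ e ≤ ((a : ℝ) + s * i) / 2 ^ e ∧
      ((a : ℝ) + s * i) / 2 ^ e ≤ (a + s * n : ℝ) / 2 ^ e := by
  have h1 : (0 : ℝ) ≤ (s : ℝ) * i := by positivity
  have h2 : (i : ℝ) ≤ n := by exact_mod_cast hi
  have h3 : (s : ℝ) * i ≤ s * n := mul_le_mul_of_nonneg_left h2 (Nat.cast_nonneg s)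
  have h4 : (0 : ℝ) ≤ 2 ^ e := by positivity
  constructor
  · exact div_le_div_of_nonneg_right (by linarith) h4
  · exact div_le_div_of_nonneg_right (by linarith) h4

private theorem Main_thr (Z : Zone) (S : List Sym) (P : List Op) :
    (Z.thr S P : ℝ) = ((gap (Z.MT S P) Z.sT Z.eT : ℝ) + (gap (Z.MX S P) Z.sX Z.eX : ℝ)) +
      ((gap (Z.MY S P) Z.sY Z.eY : ℝ) + (Z.err S P : ℝ)) := by
  unfold Zone.thr
  show (((_ + _) + (_ + _) : ℕ) : ℝ) = _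
  push_cast
  rfl

theorem check_sound (Z : Zone) (S : List Sym) (P : List Op) (h : check Z S P = true)
    (t x y : ℝ) (hz : Z.Mem t x y) (β : ℕ → ℝ) (hβ : Encl S t β) :
    0 ≤ res (realAlg β x y) P := by
  have hz' := hz
  obtain ⟨ht1, ht2, hx1, hx2, hy1, hy2⟩ := hz
  have hthr := Main_thr Z S P
  -- direction y
  have h1 : ∀ i j : ℕ, i ≤ Z.nT → j ≤ Z.nX →
      ((gap (Z.MT S P) Z.sT Z.eT : ℝ) + (gap (Z.MX S P) Z.sX Z.eX : ℝ) + (Z.err S P : ℝ)) / 2 ^ 60 ≤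
      res (realAlg (nom S (((Z.aT : ℝ) + Z.sT * i) / 2 ^ Z.eT))
        (((Z.aX : ℝ) + Z.sX * j) / 2 ^ Z.eX) y) P := by
    intro i j hi hj
    obtain ⟨a1, a2⟩ := Main_grid Z.aT Z.sT Z.nT Z.eT i hi
    obtain ⟨b1, b2⟩ := Main_grid Z.aX Z.sX Z.nX Z.eX j hj
    have hm : Z.Mem (((Z.aT : ℝ) + Z.sT * i) / 2 ^ Z.eT) (((Z.aX : ℝ) + Z.sX * j) / 2 ^ Z.eX) y :=
      ⟨a1, a2, b1, b2, hy1, hy2⟩
    have hd := MY_sound Z S P _ _ _ hm
    have hi' := interp_grid _ Z.aY Z.sY Z.nY Z.eY ((Z.MY S P : ℝ) / 2 ^ 48)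
      ((Z.thr S P : ℝ) / 2 ^ 60) (by positivity) hd
      (fun k hk => grid_sound Z S P h i j k hi hj hk) y hy1 hy2
    have hg := gap_le (Z.MY S P) Z.sY Z.eY
    refine le_trans ?_ hi'
    rw [hthr]
    rw [add_div, add_div, add_div, add_div, add_div]
    linarith
  -- direction x
  have h2 : ∀ i : ℕ, i ≤ Z.nT →
      ((gap (Z.MT S P) Z.sT Z.eT : ℝ) + (Z.err S P : ℝ)) / 2 ^ 60 ≤
      res (realAlg (nom S (((Z.aT : ℝ) + Z.sT * i) / 2 ^ Z.eT)) x y) P := by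
    intro i hi
    obtain ⟨a1, a2⟩ := Main_grid Z.aT Z.sT Z.nT Z.eT i hi
    have hm : Z.Mem (((Z.aT : ℝ) + Z.sT * i) / 2 ^ Z.eT) x y := ⟨a1, a2, hx1, hx2, hy1, hy2⟩
    have hd := MX_sound Z S P _ _ _ hm
    have hi' := interp_grid _ Z.aX Z.sX Z.nX Z.eX ((Z.MX S P : ℝ) / 2 ^ 48)
      (((gap (Z.MT S P) Z.sT Z.eT : ℝ) + (gap (Z.MX S P) Z.sX Z.eX : ℝ) +
        (Z.err S P : ℝ)) / 2 ^ 60) (by positivity) hd
      (fun j hj => h1 i j hi hj) x hx1 hx2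
    have hg := gap_le (Z.MX S P) Z.sX Z.eX
    refine le_trans ?_ hi'
    rw [add_div, add_div, add_div]
    linarith
  -- direction t
  have h3 : (Z.err S P : ℝ) / 2 ^ 60 ≤ res (realAlg (nom S t) x y) P := by
    have hd := MT_sound Z S P _ _ _ hz'
    have hi' := interp_grid _ Z.aT Z.sT Z.nT Z.eT ((Z.MT S P : ℝ) / 2 ^ 48)
      (((gap (Z.MT S P) Z.sT Z.eT : ℝ) + (Z.err S P : ℝ)) / 2 ^ 60) (by positivity) hd
      (fun i hi => h2 i hi) t ht1 ht2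
    have hg := gap_le (Z.MT S P) Z.sT Z.eT
    refine le_trans ?_ hi'
    rw [add_div]
    linarith
  have h4 := err_sound Z S P t x y hz' β hβ
  have h5 := (abs_le.mp h4).1
  linarith

end Pool.H47.Kc
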