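import Pool.Agent.H47.Kc.Rel

/-! # Pack: exact dyadic evaluation, congruences, bounds

`fx_val`: relation `a.val = r` (`Fx.add`: the exponents `b.e - a.e` (truncated) etc.:
`a.n 2^(b.e-a.e) / 2^(a.e + (b.e-a.e)) = a.n / 2^a.e`, and `a.e + (b.e - a.e) = b.e + (a.e - b.e)`).
`fx_congr_x`, `fx_congr_y`: relation `a.e = b.e ∧ m ∣ a.n - b.n`.
`mj_bound`: relation `m.e = a.e ∧ a.n.natAbs ≤ m.n`. -/

set_option autoImplicit false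

namespace Pool.H47.Kc

private lemma add_val (a b : Fx) : (Fx.add a b).val = a.val + b.val := by
  unfold Fx.val Fx.add
  simp only [Nat.add_eq, Nat.sub_eq]
  push_cast
  rw [add_div]
  congr 1
  · rw [pow_add, mul_comm ((2 : ℝ) ^ a.e), mul_comm (a.n : ℝ)]
    rw [mul_div_mul_left _ _ (by positivity)]
  · have h : a.e + (b.e - a.e) = (a.e - b.e) + b.e := by omega
    rw [h, pow_add, mul_comm (b.n : ℝ)]
    rw [mul_div_mul_left _ _ (by positivity)]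

private lemma sub_val (a b : Fx) : (Fx.sub a b).val = a.val - b.val := by
  unfold Fx.val Fx.sub
  simp only [Nat.add_eq, Nat.sub_eq]
  push_cast
  rw [sub_div]
  congr 1
  · rw [pow_add, mul_comm ((2 : ℝ) ^ a.e), mul_comm (a.n : ℝ)]
    rw [mul_div_mul_left _ _ (by positivity)]
  · have h : a.e + (b.e - a.e) = (a.e - b.e) + b.e := by omega
    rw [h, pow_add, mul_comm (b.n : ℝ)]
    rw [mul_div_mul_left _ _ (by positivity)]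

private lemma mul_val (a b : Fx) : (Fx.mul a b).val = a.val * b.val := by
  unfold Fx.val Fx.mul
  simp only [Nat.add_eq]
  push_cast
  rw [pow_add, div_mul_div_comm]

theorem fx_val (S : List Sym) (n : ℤ) (e : ℕ) (x y : Fx) (P : List Op) :
    (res (fxAlg (fxBases S n e) x y) P).val =
      res (realAlg (nom S ((n : ℝ) / 2 ^ e)) x.val y.val) P := by
  refine res_rel (A := fxAlg (fxBases S n e) x y)
    (B := realAlg (nom S ((n : ℝ) / 2 ^ e)) x.val y.val) (R := fun a r => a.val = r) ?_ P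
  refine ⟨fun z e => rfl, ?_, rfl, rfl, ?_, ?_, ?_, ?_⟩
  · intro i
    have h := bases_rel (A := fxAlg [] ⟨0, 0⟩ ⟨0, 0⟩)
      (B := realAlg (fun _ => 0) 0 0) (R := fun a r => a.val = r)
      (fun z e => rfl) (fun a b a' b' h1 h2 => by
        show (Fx.add a b).val = a' + b'
        rw [add_val, h1, h2]) (fun a b a' b' h1 h2 => by
        show (Fx.mul a b).val = a' * b'
        rw [mul_val, h1, h2]) ⟨n, e⟩ ((n : ℝ) / 2 ^ e) rfl ⟨0, 0⟩ 0 (by simp [Fx.val]) S i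
    rw [get_bases_real] at h
    exact h
  · intro a b a' b' h1 h2
    show (Fx.add a b).val = a' + b'
    rw [add_val, h1, h2]
  · intro a b a' b' h1 h2
    show (Fx.sub a b).val = a' - b'
    rw [sub_val, h1, h2]
  · intro a b a' b' h1 h2
    show (Fx.mul a b).val = a' * b'
    rw [mul_val, h1, h2]
  · show (⟨0, 0⟩ : Fx).val = 0
    simp [Fx.val]

private def Cg (m : ℤ) (a b : Fx) : Prop := a.e = b.e ∧ m ∣ a.n - b.n

private lemma cg_refl (m : ℤ) (a : Fx) : Cg m a a := ⟨rfl, by simp⟩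

private lemma cg_add (m : ℤ) (a b a' b' : Fx) (h1 : Cg m a a') (h2 : Cg m b b') :
    Cg m (Fx.add a b) (Fx.add a' b') := by
  unfold Cg Fx.add
  obtain ⟨e1, d1⟩ := h1
  obtain ⟨e2, d2⟩ := h2
  simp only [e1, e2, Nat.add_eq, Nat.sub_eq]
  refine ⟨trivial, ?_⟩
  have : a.n * (2 : ℤ) ^ (b'.e - a'.e) + b.n * (2 : ℤ) ^ (a'.e - b'.e) -
      (a'.n * (2 : ℤ) ^ (b'.e - a'.e) + b'.n * (2 : ℤ) ^ (a'.e - b'.e)) =
      (a.n - a'.n) * (2 : ℤ) ^ (b'.e - a'.e) + (b.n - b'.n) * (2 : ℤ) ^ (a'.e - b'.e) := by ring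
  rw [this]
  exact dvd_add (Dvd.dvd.mul_right d1 _) (Dvd.dvd.mul_right d2 _)

private lemma cg_sub (m : ℤ) (a b a' b' : Fx) (h1 : Cg m a a') (h2 : Cg m b b') :
    Cg m (Fx.sub a b) (Fx.sub a' b') := by
  unfold Cg Fx.sub
  obtain ⟨e1, d1⟩ := h1
  obtain ⟨e2, d2⟩ := h2
  simp only [e1, e2, Nat.add_eq, Nat.sub_eq]
  refine ⟨trivial, ?_⟩
  have : a.n * (2 : ℤ) ^ (b'.e - a'.e) - b.n * (2 : ℤ) ^ (a'.e - b'.e) -
      (a'.n * (2 : ℤ) ^ (b'.e - a'.e) - b'.n * (2 : ℤ) ^ (a'.e - b'.e)) =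
      (a.n - a'.n) * (2 : ℤ) ^ (b'.e - a'.e) - (b.n - b'.n) * (2 : ℤ) ^ (a'.e - b'.e) := by ring
  rw [this]
  exact dvd_sub (Dvd.dvd.mul_right d1 _) (Dvd.dvd.mul_right d2 _)

private lemma cg_mul (m : ℤ) (a b a' b' : Fx) (h1 : Cg m a a') (h2 : Cg m b b') :
    Cg m (Fx.mul a b) (Fx.mul a' b') := by
  unfold Cg Fx.mul
  obtain ⟨e1, d1⟩ := h1
  obtain ⟨e2, d2⟩ := h2
  simp only [e1, e2, Nat.add_eq]
  refine ⟨trivial, ?_⟩
  have : a.n * b.n - a'.n * b'.n = (a.n - a'.n) * b.n + a'.n * (b.n - b'.n) := by ring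
  rw [this]
  exact dvd_add (Dvd.dvd.mul_right d1 _) (Dvd.dvd.mul_left d2 _)

private lemma cg_alg (m : ℤ) (q : List Fx) (x x' y y' : Fx) (hx : Cg m x x') (hy : Cg m y y') :
    RelAlg (fxAlg q x y) (fxAlg q x' y') (Cg m) :=
  ⟨fun _ _ => cg_refl m _, fun _ => cg_refl m _, hx, hy, cg_add m, cg_sub m, cg_mul m,
    cg_refl m _⟩

theorem fx_congr_x (q : List Fx) (X X' : ℤ) (e : ℕ) (y : Fx) (m : ℤ) (h : m ∣ X - X')
    (P : List Op) :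
    (res (fxAlg q ⟨X, e⟩ y) P).e = (res (fxAlg q ⟨X', e⟩ y) P).e ∧
      m ∣ (res (fxAlg q ⟨X, e⟩ y) P).n - (res (fxAlg q ⟨X', e⟩ y) P).n :=
  res_rel (cg_alg m q ⟨X, e⟩ ⟨X', e⟩ y y ⟨rfl, h⟩ (cg_refl m _)) P

theorem fx_congr_y (q : List Fx) (x : Fx) (Y Y' : ℤ) (e : ℕ) (m : ℤ) (h : m ∣ Y - Y')
    (P : List Op) :
    (res (fxAlg q x ⟨Y, e⟩) P).e = (res (fxAlg q x ⟨Y', e⟩) P).e ∧
      m ∣ (res (fxAlg q x ⟨Y, e⟩) P).n - (res (fxAlg q x ⟨Y', e⟩) P).n :=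
  res_rel (cg_alg m q x x ⟨Y, e⟩ ⟨Y', e⟩ (cg_refl m _) ⟨rfl, h⟩) P

private def Mb (m : Mj) (a : Fx) : Prop := m.e = a.e ∧ a.n.natAbs ≤ m.n

private lemma natAbs_two_pow (k : ℕ) : ((2 : ℤ) ^ k).natAbs = 2 ^ k := by
  rw [Int.natAbs_pow]; rfl

private lemma mb_add (m k : Mj) (a b : Fx) (h1 : Mb m a) (h2 : Mb k b) :
    Mb (Mj.add m k) (Fx.add a b) := by
  unfold Mb Mj.add Fx.add
  obtain ⟨e1, d1⟩ := h1
  obtain ⟨e2, d2⟩ := h2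
  simp only [e1, e2, Nat.add_eq, Nat.sub_eq, Nat.mul_eq, Nat.pow_eq]
  refine ⟨trivial, (Int.natAbs_add_le _ _).trans ?_⟩
  rw [Int.natAbs_mul, Int.natAbs_mul, natAbs_two_pow, natAbs_two_pow]
  exact Nat.add_le_add (Nat.mul_le_mul_right _ d1) (Nat.mul_le_mul_right _ d2)

private lemma mb_sub (m k : Mj) (a b : Fx) (h1 : Mb m a) (h2 : Mb k b) :
    Mb (Mj.add m k) (Fx.sub a b) := by
  unfold Mb Mj.add Fx.sub
  obtain ⟨e1, d1⟩ := h1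
  obtain ⟨e2, d2⟩ := h2
  simp only [e1, e2, Nat.add_eq, Nat.sub_eq, Nat.mul_eq, Nat.pow_eq]
  refine ⟨trivial, (Int.natAbs_sub_le _ _).trans ?_⟩
  rw [Int.natAbs_mul, Int.natAbs_mul, natAbs_two_pow, natAbs_two_pow]
  exact Nat.add_le_add (Nat.mul_le_mul_right _ d1) (Nat.mul_le_mul_right _ d2)

private lemma mb_mul (m k : Mj) (a b : Fx) (h1 : Mb m a) (h2 : Mb k b) :
    Mb (Mj.mul m k) (Fx.mul a b) := by
  unfold Mb Mj.mul Fx.mul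
  obtain ⟨e1, d1⟩ := h1
  obtain ⟨e2, d2⟩ := h2
  simp only [e1, e2, Nat.add_eq, Nat.mul_eq]
  refine ⟨trivial, ?_⟩
  rw [Int.natAbs_mul]
  exact Nat.mul_le_mul d1 d2

theorem mj_bound (S : List Sym) (n : ℤ) (N e : ℕ) (hn : n.natAbs ≤ N) (x y : Fx) (X Y : Mj)
    (hx : X.e = x.e ∧ x.n.natAbs ≤ X.n) (hy : Y.e = y.e ∧ y.n.natAbs ≤ Y.n) (P : List Op) :
    (res (mjAlg (bases (mjAlg [] ⟨0, 0⟩ ⟨0, 0⟩) ⟨N, e⟩ S) X Y) P).e =
        (res (fxAlg (fxBases S n e) x y) P).e ∧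
      (res (fxAlg (fxBases S n e) x y) P).n.natAbs ≤
        (res (mjAlg (bases (mjAlg [] ⟨0, 0⟩ ⟨0, 0⟩) ⟨N, e⟩ S) X Y) P).n := by
  refine res_rel (A := mjAlg (bases (mjAlg [] ⟨0, 0⟩ ⟨0, 0⟩) ⟨N, e⟩ S) X Y)
    (B := fxAlg (fxBases S n e) x y) (R := Mb) ?_ P
  refine ⟨fun z e => ⟨rfl, le_refl _⟩, ?_, hx, hy, mb_add, mb_sub, mb_mul, ⟨rfl, le_refl _⟩⟩
  intro i
  exact bases_rel (A := mjAlg [] ⟨0, 0⟩ ⟨0, 0⟩) (B := fxAlg [] ⟨0, 0⟩ ⟨0, 0⟩) (R := Mb)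
    (fun z e => ⟨rfl, le_refl _⟩) mb_add mb_mul ⟨N, e⟩ ⟨n, e⟩ ⟨rfl, hn⟩ ⟨0, 0⟩ ⟨0, 0⟩
    ⟨rfl, le_refl _⟩ S i

end Pool.H47.Kc
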